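import Pool.Agent.Lib.H25A.Defs

/-! Chunk B1 (S). -/

namespace Pool.Agent.H25A

open Matrix
open scoped ComplexOrder

variable {ι : Type*} [Fintype ι] [DecidableEq ι]

open scoped MatrixOrder in
theorem b1_sqrt {A : Matrix ι ι ℂ} (hA : A.PosSemidef) : ∃ B : Matrix ι ι ℂ, A = Bᴴ * B := by
  obtain ⟨a, ha⟩ := CStarAlgebra.nonneg_iff_eq_star_mul_self.mp hA.nonneg
  exact ⟨a, ha⟩

/-- The trace of a product of two positive semidefinite matrices is nonnegative.
PROOF. `A = B^* B` (`Matrix.posSemidef_iff_eq_conjTranspose_mul_self` or the square root), so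
`tr (A M) = tr (B M B^*)`, and `B M B^*` is positive semidefinite
(`Matrix.PosSemidef.mul_mul_conjTranspose_same`), so its trace is nonnegative
(`Matrix.PosSemidef.trace_nonneg`). -/
theorem rtr_mul_nonneg {A M : Matrix ι ι ℂ} (hA : A.PosSemidef) (hM : M.PosSemidef) :
    0 ≤ rtr (A * M) := by
  obtain ⟨B, rfl⟩ := b1_sqrt hA
  have h1 : (Bᴴ * B * M).trace = (B * M * Bᴴ).trace := by
    rw [Matrix.mul_assoc, Matrix.trace_mul_comm]
  have h2 := (hM.mul_mul_conjTranspose_same B).trace_nonneg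
  unfold rtr
  rw [h1]
  exact (Complex.nonneg_iff.mp h2).1

end Pool.Agent.H25A
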