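import Pool.Agent.Lib.H25A.Defs
import Pool.Agent.Lib.H25A.B1

/-! Chunk B1b (S): consequences of B1 and linearity of `rtr`. -/

namespace Pool.Agent.H25A

open Matrix
open scoped ComplexOrder

variable {ι : Type*} [Fintype ι] [DecidableEq ι]

theorem rtr_add (A B : Matrix ι ι ℂ) : rtr (A + B) = rtr A + rtr B := by
  unfold rtr
  rw [Matrix.trace_add, Complex.add_re]

theorem rtr_sub (A B : Matrix ι ι ℂ) : rtr (A - B) = rtr A - rtr B := by
  unfold rtr
  rw [Matrix.trace_sub, Complex.sub_re]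

theorem rtr_neg (A : Matrix ι ι ℂ) : rtr (-A) = - rtr A := by
  unfold rtr
  rw [Matrix.trace_neg, Complex.neg_re]

theorem rtr_smul (r : ℝ) (A : Matrix ι ι ℂ) : rtr ((r : ℂ) • A) = r * rtr A := by
  unfold rtr
  rw [Matrix.trace_smul, smul_eq_mul, Complex.re_ofReal_mul]

theorem rtr_sum {κ : Type*} (s : Finset κ) (A : κ → Matrix ι ι ℂ) :
    rtr (∑ k ∈ s, A k) = ∑ k ∈ s, rtr (A k) := by
  unfold rtr
  rw [Matrix.trace_sum, Complex.re_sum]

theorem rtr_mul_comm (A B : Matrix ι ι ℂ) : rtr (A * B) = rtr (B * A) := by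
  unfold rtr
  rw [Matrix.trace_mul_comm]

/-- `tr A^* = conj (tr A)`. -/
theorem rtr_conjTranspose (A : Matrix ι ι ℂ) : rtr Aᴴ = rtr A := by
  unfold rtr
  rw [Matrix.trace_conjTranspose]
  exact Complex.conj_re _

/-- `tr (A X B X) ≥ 0` for positive semidefinite `A`, `B` and Hermitian `X`.
PROOF. `X B X = X^* B X` is positive semidefinite; B1. -/
theorem rtr_sandwich_nonneg {A B X : Matrix ι ι ℂ} (hA : A.PosSemidef) (hB : B.PosSemidef)
    (hX : X.IsHermitian) : 0 ≤ rtr (A * X * B * X) := by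
  have h1 : (X * B * X).PosSemidef := by
    have h2 := hB.conjTranspose_mul_mul_same X
    rwa [hX.eq] at h2
  have h3 : A * X * B * X = A * (X * B * X) := by
    simp only [Matrix.mul_assoc]
  rw [h3]
  exact rtr_mul_nonneg hA h1

/-- `tr (A^* A) ≥ 0`. -/
theorem rtr_conjTranspose_mul_self_nonneg (A : Matrix ι ι ℂ) : 0 ≤ rtr (Aᴴ * A) := by
  have h := rtr_mul_nonneg (Matrix.posSemidef_conjTranspose_mul_self A) (Matrix.PosSemidef.one (n := ι) (R := ℂ))
  rwa [Matrix.mul_one] at h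

/-- Monotonicity: if `A ≤ B` and `M ≥ 0` then `tr (A M) ≤ tr (B M)`. -/
theorem rtr_mul_le {A B M : Matrix ι ι ℂ} (h : (B - A).PosSemidef) (hM : M.PosSemidef) :
    rtr (A * M) ≤ rtr (B * M) := by
  have h1 := rtr_mul_nonneg h hM
  rw [Matrix.sub_mul, rtr_sub] at h1
  linarith

end Pool.Agent.H25A
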