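import Mathlib

/-! Chunk R4 (S/M). -/

namespace Pool.Agent.H25A

open scoped InnerProductSpace

variable {H : Type*} [NormedAddCommGroup H] [InnerProductSpace ℂ H]

/-- Finitely many vectors lie in the span of a finite orthonormal family.
PROOF. `V = span` of all `ξ_j`, `η_j` is finite dimensional, take `stdOrthonormalBasis ℂ V`
composed with the inclusion; `OrthonormalBasis.sum_repr` and
`OrthonormalBasis.sum_inner_mul_inner`. -/
theorem exists_onb {m : ℕ} (ξ η : Fin m → H) :
    ∃ (d : ℕ) (b : Fin d → H), Orthonormal ℂ b ∧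
      (∀ j, ξ j = ∑ q, ⟪b q, ξ j⟫_ℂ • b q) ∧ (∀ j, η j = ∑ q, ⟪b q, η j⟫_ℂ • b q) := by
  classical
  let V : Submodule ℂ H := Submodule.span ℂ (Set.range ξ ∪ Set.range η)
  have hfin : FiniteDimensional ℂ V :=
    FiniteDimensional.span_of_finite ℂ ((Set.finite_range ξ).union (Set.finite_range η))
  let b0 := stdOrthonormalBasis ℂ V
  have key : ∀ x : H, x ∈ V → x = ∑ q, ⟪((b0 q : V) : H), x⟫_ℂ • ((b0 q : V) : H) := by
    intro x hx
    have h := congrArg (fun v : V => (v : H)) (b0.sum_repr' (⟨x, hx⟩ : V))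
    simp only [Submodule.coe_sum, Submodule.coe_smul, Submodule.coe_inner] at h
    exact h.symm
  exact ⟨Module.finrank ℂ V, fun q => ((b0 q : V) : H),
    b0.orthonormal.comp_linearIsometry V.subtypeₗᵢ,
    fun j => key _ (Submodule.subset_span (Or.inl ⟨j, rfl⟩)),
    fun j => key _ (Submodule.subset_span (Or.inr ⟨j, rfl⟩))⟩

end Pool.Agent.H25A
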