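import Pool.Agent.Lib.H25A.Defs

/-! Chunk B3 (M). -/

namespace Pool.Agent.H25A

open Matrix
open scoped ComplexOrder

variable {ι : Type*} [Fintype ι] [DecidableEq ι]

/-- Positive and negative part of a Hermitian matrix.
PROOF. `G = U D U^*` (`Matrix.IsHermitian.spectral_theorem`, `U` unitary, `D` diagonal with the
real eigenvalues `d_i`).  Take `Gp = U diag(max d_i 0) U^*`, `Gm = U diag(max (-d_i) 0) U^*`,
`Q = U diag(1 if d_i > 0, else 0) U^*`. -/
theorem pm_parts {G : Matrix ι ι ℂ} (hG : G.IsHermitian) :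
    ∃ Gp Gm Q : Matrix ι ι ℂ, Gp.PosSemidef ∧ Gm.PosSemidef ∧ G = Gp - Gm ∧
      Q.IsHermitian ∧ Q * Q = Q ∧ Q * G = Gp ∧ G * Q = Gp ∧ Gp * Gm = 0 ∧ Gm * Gp = 0 := by
  let φ := Unitary.conjStarAlgAut ℂ (Matrix ι ι ℂ) hG.eigenvectorUnitary
  let d : ι → ℝ := hG.eigenvalues
  have hspec : G = φ (diagonal (fun i => ((d i : ℝ) : ℂ))) := hG.spectral_theorem
  have hpos : ∀ e : ι → ℝ, (∀ i, 0 ≤ e i) →
      (φ (diagonal (fun i => ((e i : ℝ) : ℂ)))).PosSemidef := by
    intro e he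
    have h1 : (diagonal (fun i => ((e i : ℝ) : ℂ)) : Matrix ι ι ℂ).PosSemidef := by
      rw [Matrix.posSemidef_diagonal_iff]
      intro i
      exact_mod_cast he i
    have h2 := h1.mul_mul_conjTranspose_same (hG.eigenvectorUnitary : Matrix ι ι ℂ)
    have h3 : φ (diagonal (fun i => ((e i : ℝ) : ℂ))) =
        (hG.eigenvectorUnitary : Matrix ι ι ℂ) * diagonal (fun i => ((e i : ℝ) : ℂ)) *
          (hG.eigenvectorUnitary : Matrix ι ι ℂ)ᴴ := by
      simp only [φ]
      rw [Unitary.conjStarAlgAut_apply]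
      rfl
    rw [h3]
    exact h2
  have hmul : ∀ e f g : ι → ℝ, (∀ i, e i * f i = g i) →
      φ (diagonal (fun i => ((e i : ℝ) : ℂ))) * φ (diagonal (fun i => ((f i : ℝ) : ℂ))) =
        φ (diagonal (fun i => ((g i : ℝ) : ℂ))) := by
    intro e f g h
    rw [← map_mul, Matrix.diagonal_mul_diagonal]
    congr 2
    funext i
    rw [← h i]
    push_cast
    rfl
  have hzero : φ (diagonal (fun _ : ι => (((0 : ℝ) : ℝ) : ℂ))) = 0 := by
    have : (diagonal (fun _ : ι => (((0 : ℝ) : ℝ) : ℂ)) : Matrix ι ι ℂ) = 0 := by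
      ext i j
      simp [Matrix.diagonal_apply]
    rw [this, map_zero]
  have hmax1 : ∀ x : ℝ, (if 0 < x then (1 : ℝ) else 0) * x = max x 0 := by
    intro x
    split_ifs with h
    · rw [max_eq_left h.le, one_mul]
    · rw [max_eq_right (not_lt.mp h), zero_mul]
  have hmax2 : ∀ x : ℝ, max x 0 * max (-x) 0 = 0 := by
    intro x
    rcases le_total x 0 with h | h
    · rw [max_eq_right h, zero_mul]
    · rw [max_eq_right (neg_nonpos.mpr h), mul_zero]
  refine ⟨φ (diagonal (fun i => ((max (d i) 0 : ℝ) : ℂ))),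
    φ (diagonal (fun i => ((max (-d i) 0 : ℝ) : ℂ))),
    φ (diagonal (fun i => (((if 0 < d i then (1 : ℝ) else 0) : ℝ) : ℂ))),
    hpos _ (fun i => le_max_right _ _), hpos _ (fun i => le_max_right _ _), ?_,
    (hpos _ (fun i => by split_ifs <;> norm_num)).isHermitian, ?_, ?_, ?_, ?_, ?_⟩
  · rw [← map_sub, Matrix.diagonal_sub]
    refine hspec.trans ?_
    congr 2
    funext i
    have : d i = max (d i) 0 - max (-d i) 0 := by
      rcases le_total (d i) 0 with h | h
      · rw [max_eq_right h, max_eq_left (neg_nonneg.mpr h)]; ring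
      · rw [max_eq_left h, max_eq_right (neg_nonpos.mpr h)]; ring
    calc ((d i : ℝ) : ℂ) = ((max (d i) 0 - max (-d i) 0 : ℝ) : ℂ) := by rw [← this]
      _ = _ := by push_cast; rfl
  · exact hmul _ _ _ (fun i => by split_ifs <;> norm_num)
  · rw [hspec]
    exact hmul _ _ _ (fun i => hmax1 (d i))
  · rw [hspec]
    exact hmul _ _ _ (fun i => by rw [mul_comm]; exact hmax1 (d i))
  · rw [hmul _ _ (fun _ => 0) (fun i => hmax2 (d i))]
    exact hzero
  · rw [hmul _ _ (fun _ => 0) (fun i => by rw [mul_comm]; exact hmax2 (d i))]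
    exact hzero

end Pool.Agent.H25A
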