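import Pool.Agent.Lib.H25A.Defs

/-! Chunk B2 (S). -/

namespace Pool.Agent.H25A

open Matrix
open scoped ComplexOrder

variable {ι : Type*} [Fintype ι] [DecidableEq ι]

/-- `0 ≤ A ≤ 1` implies `A^2 ≤ A`.
PROOF. `A - A^2 = A (1 - A) A + (1 - A) A (1 - A)` (an identity in `A`: the right side is
`A^2 - A^3 + A - 2 A^2 + A^3`), both summands are of the form `M^* N M` with `N` positive
semidefinite (`Matrix.PosSemidef.conjTranspose_mul_mul_same`, `A` and `1 - A` Hermitian). -/
theorem effect_sq {A : Matrix ι ι ℂ} (h0 : A.PosSemidef) (h1 : (1 - A).PosSemidef) :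
    (A - A * A).PosSemidef := by
  have e0 : Aᴴ = A := h0.1
  have e1 : (1 - A)ᴴ = 1 - A := h1.1
  have e : A - A * A = Aᴴ * (1 - A) * A + (1 - A)ᴴ * A * (1 - A) := by
    rw [e0, e1]
    noncomm_ring
  rw [e]
  exact (h1.conjTranspose_mul_mul_same A).add (h0.conjTranspose_mul_mul_same (1 - A))

end Pool.Agent.H25A
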