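import Pool.Agent.Lib.H25A.Defs
import Pool.Agent.Lib.H25A.B1b

/-! Chunk B4 (S). -/

namespace Pool.Agent.H25A

open Matrix
open scoped ComplexOrder

variable {ι : Type*} [Fintype ι] [DecidableEq ι]

/-- `tr (Y G Y G) ≤ tr (Y^2 G^2)` for Hermitian `Y`, `G`.
PROOF. `M = Y G - G Y` has `M^* = G Y - Y G` and
`0 ≤ tr (M^* M) = tr (G Y Y G) - tr (G Y G Y) - tr (Y G Y G) + tr (Y G G Y)
= 2 tr (Y Y G G) - 2 tr (Y G Y G)`. -/
theorem rtr_comm_le {Y G : Matrix ι ι ℂ} (hY : Y.IsHermitian) (hG : G.IsHermitian) :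
    rtr (Y * G * Y * G) ≤ rtr (Y * Y * (G * G)) := by
  have h := rtr_conjTranspose_mul_self_nonneg (Y * G - G * Y)
  have e : (Y * G - G * Y)ᴴ * (Y * G - G * Y)
      = (G * Y * (Y * G) - G * Y * (G * Y)) - (Y * G * (Y * G) - Y * G * (G * Y)) := by
    rw [conjTranspose_sub, conjTranspose_mul, conjTranspose_mul, hY.eq, hG.eq]
    noncomm_ring
  rw [e, rtr_sub, rtr_sub, rtr_sub] at h
  have e1 : rtr (G * Y * (Y * G)) = rtr (Y * Y * (G * G)) := by
    rw [rtr_mul_comm (Y * Y) (G * G)]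
    rw [show G * G * (Y * Y) = G * (G * Y * Y) by noncomm_ring, rtr_mul_comm G (G * Y * Y)]
    congr 1
    noncomm_ring
  have e2 : rtr (Y * G * (G * Y)) = rtr (Y * Y * (G * G)) := by
    rw [show Y * G * (G * Y) = (Y * (G * G)) * Y by noncomm_ring, rtr_mul_comm (Y * (G * G)) Y]
    congr 1
    noncomm_ring
  have e3 : rtr (G * Y * (G * Y)) = rtr (Y * G * Y * G) := by
    rw [show G * Y * (G * Y) = G * (Y * G * Y) by noncomm_ring, rtr_mul_comm G (Y * G * Y)]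
  have e4 : rtr (Y * G * (Y * G)) = rtr (Y * G * Y * G) := by
    congr 1
    noncomm_ring
  rw [e1, e2, e3, e4] at h
  linarith

end Pool.Agent.H25A
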