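import Pool.Agent.Lib.H25A.Defs

/-! Chunk B5 (S/M). -/

namespace Pool.Agent.H25A

open Matrix
open scoped ComplexOrder

variable {ι : Type*} [Fintype ι] [DecidableEq ι]

/-- If `-rho ≤ S ≤ rho` and `ell ≥ rho`, `ell > 0`, then `S ell^{-1} S ≤ rho`.
PROOF. For all vectors `x, y`:
`<x, rho x> + <x, S y> + <y, S x> + <y, rho y>
 = (1/2) <x + y, (rho + S)(x + y)> + (1/2) <x - y, (rho - S)(x - y)> ≥ 0`; so with `ell ≥ rho`:
`<x, rho x> + <x, S y> + <y, S x> + <y, ell y> ≥ 0`.  Put `y = - ell^{-1} S x`: the left side is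
`<x, (rho - S ell^{-1} S) x>`.  (Or: the block matrix `[[rho, S], [S, ell]]` is positive
semidefinite and `Matrix.PosSemidef.fromBlocks₂₂`.) -/
theorem schur_le {S rho ell : Matrix ι ι ℂ} (hS : S.IsHermitian) (h1 : (rho + S).PosSemidef)
    (h2 : (rho - S).PosSemidef) (h3 : (ell - rho).PosSemidef) (h4 : ell.PosDef) :
    (rho - S * ell⁻¹ * S).PosSemidef := by
  have k1 := h1.mul_mul_conjTranspose_same (fromRows (1 : Matrix ι ι ℂ) (1 : Matrix ι ι ℂ))
  have k2 := h2.mul_mul_conjTranspose_same (fromRows (1 : Matrix ι ι ℂ) (-1 : Matrix ι ι ℂ))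
  have k3 := h3.mul_mul_conjTranspose_same (fromRows (0 : Matrix ι ι ℂ) (1 : Matrix ι ι ℂ))
  rw [conjTranspose_fromRows_eq_fromCols_conjTranspose, fromRows_mul, fromRows_mul_fromCols] at k1 k2 k3
  have hc : (0 : ℂ) ≤ (1 / 2 : ℂ) := by
    have : (0 : ℝ) ≤ 1 / 2 := by norm_num
    have h := Complex.zero_le_real.2 this
    push_cast at h
    exact h
  have k := ((k1.smul hc).add (k2.smul hc)).add k3
  simp only [conjTranspose_one, conjTranspose_zero, conjTranspose_neg, one_mul, mul_one, neg_mul,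
    mul_neg, neg_neg, zero_mul, mul_zero, fromBlocks_smul, fromBlocks_add] at k
  have e : fromBlocks ((1 / 2 : ℂ) • (rho + S) + (1 / 2 : ℂ) • (rho - S) + 0)
      ((1 / 2 : ℂ) • (rho + S) + (1 / 2 : ℂ) • -(rho - S) + 0)
      ((1 / 2 : ℂ) • (rho + S) + (1 / 2 : ℂ) • -(rho - S) + 0)
      ((1 / 2 : ℂ) • (rho + S) + (1 / 2 : ℂ) • (rho - S) + (ell - rho)) =
      fromBlocks rho S Sᴴ ell := by
    rw [hS.eq]
    congr 1
    · module
    · module
    · module
    · module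
  rw [e] at k
  have : Invertible ell := h4.isUnit.invertible
  have := (Matrix.PosDef.fromBlocks₂₂ rho S h4).1 k
  rwa [hS.eq] at this

end Pool.Agent.H25A
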