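import Pool.Agent.Lib.H25A.Defs
import Pool.Agent.Lib.H25A.B1b

/-! Chunk B6 (S/M). -/

namespace Pool.Agent.H25A

open Matrix
open scoped ComplexOrder

variable {ι : Type*} [Fintype ι] [DecidableEq ι]

/-- Cauchy: `2 tr (S X S X) ≤ tr (S ell^{-1} S X X) + tr (X ell X S S)`.
PROOF. `M = ell^{-1} S X - X S`, `M^* = X S ell^{-1} - S X`; `M^* ell M` is positive semidefinite
and has the trace `tr (X S ell^{-1} S X) - tr (X S X S) - tr (S X S X) + tr (S X ell X S)`. -/
theorem cauchy_ell {S X ell : Matrix ι ι ℂ} (hS : S.IsHermitian) (hX : X.IsHermitian)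
    (h4 : ell.PosDef) :
    2 * rtr (S * X * S * X) ≤ rtr (S * ell⁻¹ * S * (X * X)) + rtr (X * ell * X * (S * S)) := by
  obtain ⟨F, hF⟩ : ∃ F, F = ell⁻¹ := ⟨_, rfl⟩
  rw [← hF]
  have hdet : IsUnit ell.det := (Matrix.isUnit_iff_isUnit_det ell).mp h4.isUnit
  have f1 : F * ell = 1 := by rw [hF]; exact Matrix.nonsing_inv_mul ell hdet
  have f2 : ell * F = 1 := by rw [hF]; exact Matrix.mul_nonsing_inv ell hdet
  have hFh : Fᴴ = F := by
    rw [hF, Matrix.conjTranspose_nonsing_inv, h4.isHermitian.eq]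
  have hM : (F * S * X - X * S)ᴴ = X * S * F - S * X := by
    rw [Matrix.conjTranspose_sub, Matrix.conjTranspose_mul, Matrix.conjTranspose_mul, Matrix.conjTranspose_mul,
      hX.eq, hS.eq, hFh, Matrix.mul_assoc]
  have h1 : 0 ≤ rtr ((F * S * X - X * S)ᴴ * ell * (F * S * X - X * S)) := by
    have h2 := (h4.posSemidef.conjTranspose_mul_mul_same (F * S * X - X * S)).trace_nonneg
    exact (Complex.nonneg_iff.mp h2).1
  have e1 : (X * S * F - S * X) * ell * (F * S * X - X * S) =
      X * S * F * (ell * F) * S * X - X * S * (F * ell) * X * S - S * X * (ell * F) * S * X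
        + S * X * ell * X * S := by noncomm_ring
  rw [hM, e1, f1, f2] at h1
  simp only [Matrix.mul_one] at h1
  rw [rtr_add, rtr_sub, rtr_sub] at h1
  have g1 : rtr (X * S * F * S * X) = rtr (S * F * S * (X * X)) := by
    rw [rtr_mul_comm (X * S * F * S) X, rtr_mul_comm (S * F * S) (X * X)]
    congr 1
    noncomm_ring
  have g2 : rtr (X * S * X * S) = rtr (S * X * S * X) := by
    rw [rtr_mul_comm (X * S * X) S]
    congr 1
    noncomm_ring
  have g3 : rtr (S * X * ell * X * S) = rtr (X * ell * X * (S * S)) := by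
    rw [rtr_mul_comm (S * X * ell * X) S, rtr_mul_comm (X * ell * X) (S * S)]
    congr 1
    noncomm_ring
  rw [g1, g2, g3] at h1
  linarith

end Pool.Agent.H25A
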