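import Mathlib

/-! # Definitions for the value of the constant alpha of the four dimensional Hilbert space
(project H25A, MP_afe93a_an).  Overview: `PROOF.md`. -/

namespace Pool.Agent.H25A

open Matrix
open scoped ComplexOrder

variable {ι : Type*} [Fintype ι] [DecidableEq ι]

/-- The real part of the trace. -/
noncomputable def rtr (A : Matrix ι ι ℂ) : ℝ := (A.trace).re

/-- `x ↦ ∑ x k • C k` is a contraction from the Hilbert space `ℂⁿ` into the matrices. -/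
def Con {n : ℕ} (C : Fin n → Matrix ι ι ℂ) : Prop :=
  ∀ x : Fin n → ℂ, ((((∑ k, ‖x k‖ ^ 2 : ℝ) : ℂ) • (1 : Matrix ι ι ℂ)) -
    (∑ k, x k • C k)ᴴ * (∑ k, x k • C k)).PosSemidef

/-- The same for two matrices: `(a, b) ↦ a A + b B` is a contraction. -/
def Con2 (A B : Matrix ι ι ℂ) : Prop :=
  ∀ a b : ℂ, ((((‖a‖ ^ 2 + ‖b‖ ^ 2 : ℝ) : ℂ) • (1 : Matrix ι ι ℂ)) -
    (a • A + b • B)ᴴ * (a • A + b • B)).PosSemidef

/-- `P = A^* A + B^* B`. -/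
noncomputable def pP (A B : Matrix ι ι ℂ) : Matrix ι ι ℂ := Aᴴ * A + Bᴴ * B

/-- `rho = 2 - P`. -/
noncomputable def rh (A B : Matrix ι ι ℂ) : Matrix ι ι ℂ := (2 : ℂ) • 1 - pP A B

/-- `S_0 = B^*B - A^*A`, `S_1 = -(T + T^*)`, `S_2 = -i (T - T^*)` with `T = A^* B`. -/
noncomputable def sS (A B : Matrix ι ι ℂ) : Fin 3 → Matrix ι ι ℂ :=
  ![Bᴴ * B - Aᴴ * A, -(Aᴴ * B + Bᴴ * A), (-Complex.I) • (Aᴴ * B - Bᴴ * A)]

/-- `calA = (1/3) ∑ S_c^2`. -/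
noncomputable def aA (A B : Matrix ι ι ℂ) : Matrix ι ι ℂ :=
  (1 / 3 : ℂ) • ∑ c, sS A B c * sS A B c

/-- `(1/3) ∑ tr (S_c X S_c X)`. -/
noncomputable def sbar (A B X : Matrix ι ι ℂ) : ℝ :=
  (1 / 3) * ∑ c, rtr (sS A B c * X * sS A B c * X)

/-- `J = tr (rho X P X)`. -/
noncomputable def jJ (A B X : Matrix ι ι ℂ) : ℝ := rtr (rh A B * X * pP A B * X)

/-- `K_W = ∑_{i,j in W} tr (R_ij X R_ji X)` for the plane `W` spanned by two vectors. -/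
noncomputable def kK (A B X : Matrix ι ι ℂ) : ℝ :=
  rtr ((1 - Aᴴ * A) * X * (1 - Aᴴ * A) * X) + rtr ((1 - Bᴴ * B) * X * (1 - Bᴴ * B) * X)
    + 2 * rtr (Aᴴ * B * X * (Bᴴ * A) * X)

/-- `R_{kl} = δ_{kl} - C_l^* C_k`. -/
noncomputable def rR {n : ℕ} (C : Fin n → Matrix ι ι ℂ) (k l : Fin n) : Matrix ι ι ℂ :=
  (if k = l then 1 else 0) - (C l)ᴴ * C k

/-- `r = ∑ R_kk`. -/
noncomputable def rSum {n : ℕ} (C : Fin n → Matrix ι ι ℂ) : Matrix ι ι ℂ := ∑ k, rR C k k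

/-- `t_{klpq} = tr (R_kl X R_pq X)` (a complex number). -/
noncomputable def tt {n : ℕ} (C : Fin n → Matrix ι ι ℂ) (X : Matrix ι ι ℂ) (k l p q : Fin n) : ℂ :=
  (rR C k l * X * rR C p q * X).trace

/-- The signs `(1, 1, -1, -1)`. -/
def dD : Fin 4 → ℝ := ![1, 1, -1, -1]

/-- `b_G = ∑ G_{lk} G_{qp} t_{klpq}` (real part), i.e. `tr (R(G) X R(G) X)`. -/
noncomputable def bG (C : Fin 4 → Matrix ι ι ℂ) (X : Matrix ι ι ℂ) (G : Matrix (Fin 4) (Fin 4) ℂ) : ℝ :=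
  (∑ k, ∑ l, ∑ p, ∑ q, G l k * G q p * tt C X k l p q).re

/-- `k_G = ∑ G_{qk} G_{lp} t_{klpq}` (real part). -/
noncomputable def kG (C : Fin 4 → Matrix ι ι ℂ) (X : Matrix ι ι ℂ) (G : Matrix (Fin 4) (Fin 4) ℂ) : ℝ :=
  (∑ k, ∑ l, ∑ p, ∑ q, G q k * G l p * tt C X k l p q).re

/-- `S = ∑_{kl} tr (R_kl X R_lk X)` (real part). -/
noncomputable def sT (C : Fin 4 → Matrix ι ι ℂ) (X : Matrix ι ι ℂ) : ℝ :=
  ∑ k, ∑ l, rtr (rR C k l * X * rR C l k * X)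

/-- The rotated family `A_i = ∑_j U_ij C_j`. -/
noncomputable def rot (U : Matrix (Fin 4) (Fin 4) ℂ) (C : Fin 4 → Matrix ι ι ℂ) :
    Fin 4 → Matrix ι ι ℂ := fun i => ∑ j, U i j • C j

end Pool.Agent.H25A
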