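import Pool.Agent.Lib.H25A.Defs
import Pool.Agent.Lib.H25A.B1b

/-! Chunk F1 (S/M): the certificate (two integer valued measurements on the two legs). -/

namespace Pool.Agent.H25A

open Matrix
open scoped ComplexOrder

variable {ι : Type*} [Fintype ι] [DecidableEq ι]

/-- PROOF. Put `Z_0 = (2 - r - Y)/2`, `Z_1 = Y`, `Z_2 = (r - Y)/2` and the same with primes
(all positive semidefinite).  By B1b `rtr_sandwich_nonneg`
`2 tr (Z_0 X Z_0' X) + 2 tr (Z_1 X Z_2' X) + 2 tr (Z_2 X Z_1' X) + 6 tr (Z_2 X Z_2' X) ≥ 0`, and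
this sum equals the right side below, because of the bilinear identity
`2 z_0 z_0' + 2 z_1 z_2' + 2 z_2 z_1' + 6 z_2 z_2' = 2 - r - r' - Y - Y' + 2 r r'`
(order of the two factors kept; it is a linear combination of the traces
`tr (M X M' X)`, `M ∈ {1, r, Y}`, `M' ∈ {1, r', Y'}`, and `tr (M X 1 X) = tr (M X X)`,
`tr (1 X M' X) = tr (M' X X)`). -/
theorem certificate {X r Y r' Y' : Matrix ι ι ℂ} (hX : X.IsHermitian)
    (h0 : Y.PosSemidef) (h1 : (r - Y).PosSemidef) (h2 : ((2 : ℂ) • 1 - r - Y).PosSemidef)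
    (h0' : Y'.PosSemidef) (h1' : (r' - Y').PosSemidef) (h2' : ((2 : ℂ) • 1 - r' - Y').PosSemidef) :
    0 ≤ 2 * rtr (X * X) - rtr (r * (X * X)) - rtr (r' * (X * X)) - rtr (Y * (X * X))
      - rtr (Y' * (X * X)) + 2 * rtr (r * X * r' * X) := by
  have h2c : ∀ A : Matrix ι ι ℂ, rtr ((2 : ℂ) • A) = 2 * rtr A := by
    intro A
    have h := rtr_smul (2 : ℝ) A
    simpa using h
  have e0 := rtr_sandwich_nonneg h2 h2' hX
  have e1 := rtr_sandwich_nonneg h0 h1' hX
  have e2 := rtr_sandwich_nonneg h1 h0' hX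
  have e3 := rtr_sandwich_nonneg h1 h1' hX
  have c1 : ∀ M : Matrix ι ι ℂ, rtr (M * X * X) = rtr (M * (X * X)) := by
    intro M
    rw [Matrix.mul_assoc]
  have c2 : ∀ M : Matrix ι ι ℂ, rtr (X * M * X) = rtr (M * (X * X)) := by
    intro M
    rw [Matrix.mul_assoc, rtr_mul_comm, Matrix.mul_assoc]
  simp only [sub_mul, mul_sub, smul_mul_assoc, mul_smul_comm, Matrix.one_mul, Matrix.mul_one,
    rtr_sub, h2c, c1, c2] at e0 e1 e2 e3
  linarith

end Pool.Agent.H25A
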