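import Pool.Agent.Lib.H25A.Defs
import Pool.Agent.Lib.H25A.B1b

/-! Chunk F2 (S/M). -/

namespace Pool.Agent.H25A

open Matrix
open scoped ComplexOrder

variable {ι : Type*} [Fintype ι] [DecidableEq ι]

theorem f2_smul (D X : Matrix ι ι ℂ) :
    ((-Complex.I) • D) * X * ((-Complex.I) • D) * X = -(D * X * D * X) := by
  simp only [Matrix.smul_mul, Matrix.mul_smul, smul_smul]
  have h : -Complex.I * -Complex.I = -1 := by
    rw [neg_mul_neg, Complex.I_mul_I]
  rw [h, neg_smul, one_smul]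

/-- `K_W = (1/2) tr (rho X rho X) + (3/2) sbar`.
PROOF. `1 - A^*A = (rho + S_0)/2`, `1 - B^*B = (rho - S_0)/2`: the first two terms of `kK` give
`(1/2) tr (rho X rho X) + (1/2) tr (S_0 X S_0 X)`.  With `T = A^* B`, `S_1 = -(T + T^*)`,
`S_2 = - i (T - T^*)`: `tr (S_1 X S_1 X) + tr (S_2 X S_2 X)
= tr ((T+T^*) X (T+T^*) X) - tr ((T-T^*) X (T-T^*) X) = 2 tr (T X T^* X) + 2 tr (T^* X T X)
= 4 tr (T X T^* X)`. -/
theorem kK_eq (A B X : Matrix ι ι ℂ) :
    kK A B X = (1 / 2) * rtr (rh A B * X * rh A B * X) + (3 / 2) * sbar A B X := by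
  obtain ⟨a, ha⟩ : ∃ a, a = Aᴴ * A := ⟨_, rfl⟩
  obtain ⟨b, hb⟩ : ∃ b, b = Bᴴ * B := ⟨_, rfl⟩
  obtain ⟨T, hT⟩ : ∃ T, T = Aᴴ * B := ⟨_, rfl⟩
  obtain ⟨T', hT'⟩ : ∃ T', T' = Bᴴ * A := ⟨_, rfl⟩
  have h0 : sS A B 0 = b - a := by rw [ha, hb]; rfl
  have h1 : sS A B 1 = -(T + T') := by rw [hT, hT']; rfl
  have h2 : sS A B 2 = (-Complex.I) • (T - T') := by rw [hT, hT']; rfl
  have hrh : rh A B = 1 + 1 - (a + b) := by
    rw [rh, pP, ← ha, ← hb, two_smul]
  unfold kK sbar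
  rw [Fin.sum_univ_three, h0, h1, h2, hrh, f2_smul, ← ha, ← hb, ← hT, ← hT']
  have key : (1 + 1 - (a + b)) * X * (1 + 1 - (a + b)) * X + (b - a) * X * (b - a) * X +
      (-(T + T')) * X * (-(T + T')) * X - (T - T') * X * (T - T') * X =
      ((1 - a) * X * (1 - a) * X + (1 - a) * X * (1 - a) * X) +
      ((1 - b) * X * (1 - b) * X + (1 - b) * X * (1 - b) * X) +
      (T * X * T' * X + T * X * T' * X) + (T' * X * T * X + T' * X * T * X) := by
    noncomm_ring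
  have key2 := congrArg rtr key
  simp only [rtr_add, rtr_sub] at key2
  have h3 : rtr (T' * X * T * X) = rtr (T * X * T' * X) := by
    have e1 : T' * X * T * X = (T' * X) * (T * X) := by simp only [Matrix.mul_assoc]
    have e2 : T * X * T' * X = (T * X) * (T' * X) := by simp only [Matrix.mul_assoc]
    rw [e1, e2, rtr_mul_comm]
  rw [h3] at key2
  rw [rtr_neg]
  generalize rtr ((1 + 1 - (a + b)) * X * (1 + 1 - (a + b)) * X) = A1 at key2 ⊢
  generalize rtr ((b - a) * X * (b - a) * X) = A2 at key2 ⊢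
  generalize rtr (-(T + T') * X * -(T + T') * X) = A3 at key2 ⊢
  generalize rtr ((T - T') * X * (T - T') * X) = A4 at key2 ⊢
  generalize rtr ((1 - a) * X * (1 - a) * X) = A5 at key2 ⊢
  generalize rtr ((1 - b) * X * (1 - b) * X) = A6 at key2 ⊢
  generalize rtr (T * X * T' * X) = A7 at key2 ⊢
  linarith

/-- `J = 2 tr (rho X X) - tr (rho X rho X)` (as `P = 2 - rho`). -/
theorem jJ_eq (A B X : Matrix ι ι ℂ) :
    jJ A B X = 2 * rtr (rh A B * (X * X)) - rtr (rh A B * X * rh A B * X) := by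
  have hP : pP A B = 1 + 1 - rh A B := by
    rw [rh, two_smul]; abel
  unfold jJ
  rw [hP]
  have key : rh A B * X * (1 + 1 - rh A B) * X =
      (rh A B * (X * X) + rh A B * (X * X)) - rh A B * X * rh A B * X := by
    noncomm_ring
  rw [key, rtr_sub, rtr_add]
  ring

end Pool.Agent.H25A
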