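import Pool.Agent.Lib.H25A.Defs

/-! Chunk P1 (S/M). -/

namespace Pool.Agent.H25A

open Matrix
open scoped ComplexOrder

variable {ι : Type*} [Fintype ι] [DecidableEq ι]

/-- `S_c` is Hermitian, and `P`, `rho` are. -/
theorem sS_herm (A B : Matrix ι ι ℂ) (c : Fin 3) : (sS A B c).IsHermitian := by
  unfold Matrix.IsHermitian
  fin_cases c
  · simp [sS, Matrix.conjTranspose_sub, Matrix.conjTranspose_mul]
  · simp [sS, Matrix.conjTranspose_add, Matrix.conjTranspose_mul, add_comm]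
  · simp only [sS, Matrix.conjTranspose_smul, Matrix.conjTranspose_sub, Matrix.conjTranspose_mul,
      Matrix.conjTranspose_conjTranspose, Fin.reduceFinMk, Matrix.cons_val, star_neg, Complex.star_def, Complex.conj_I, neg_neg]
    rw [neg_smul, ← smul_neg, neg_sub]

theorem pP_herm (A B : Matrix ι ι ℂ) : (pP A B).IsHermitian := by
  unfold Matrix.IsHermitian pP
  simp [Matrix.conjTranspose_add, Matrix.conjTranspose_mul]

theorem rh_herm (A B : Matrix ι ι ℂ) : (rh A B).IsHermitian := by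
  unfold rh
  refine Matrix.IsHermitian.sub ?_ (pP_herm A B)
  unfold Matrix.IsHermitian
  rw [Matrix.conjTranspose_smul, Matrix.conjTranspose_one]
  simp

theorem p1_exp (A B : Matrix ι ι ℂ) (a b : ℂ) : (a • A + b • B)ᴴ * (a • A + b • B) =
    (star a * a) • (Aᴴ * A) + (star a * b) • (Aᴴ * B) + (star b * a) • (Bᴴ * A) + (star b * b) • (Bᴴ * B) := by
  simp only [Matrix.conjTranspose_add, Matrix.conjTranspose_smul, Matrix.add_mul, Matrix.mul_add, Matrix.smul_mul,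
    Matrix.mul_smul, smul_smul]
  module

theorem p1_psd (A B : Matrix ι ι ℂ) (a b : ℂ) : ((star a * a) • (Aᴴ * A) + (star a * b) • (Aᴴ * B) +
    (star b * a) • (Bᴴ * A) + (star b * b) • (Bᴴ * B)).PosSemidef := by
  rw [← p1_exp]
  exact Matrix.posSemidef_conjTranspose_mul_self _

theorem p1_con {A B : Matrix ι ι ℂ} (h : Con2 A B) (a b : ℂ) : ((((‖a‖ ^ 2 + ‖b‖ ^ 2 : ℝ) : ℂ) • (1 : Matrix ι ι ℂ)) -
    ((star a * a) • (Aᴴ * A) + (star a * b) • (Aᴴ * B) +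
    (star b * a) • (Bᴴ * A) + (star b * b) • (Bᴴ * B))).PosSemidef := by
  rw [← p1_exp]
  exact h a b

theorem p1_s0 (A B : Matrix ι ι ℂ) : sS A B 0 = Bᴴ * B - Aᴴ * A := rfl

theorem p1_s1 (A B : Matrix ι ι ℂ) : sS A B 1 = -(Aᴴ * B + Bᴴ * A) := rfl

theorem p1_s2 (A B : Matrix ι ι ℂ) : sS A B 2 = (-Complex.I) • (Aᴴ * B - Bᴴ * A) := rfl

/-- `P ± S_c ≥ 0`.
PROOF. `P + S_0 = 2 B^* B`, `P - S_0 = 2 A^* A`, `P - S_1 = (A + B)^* (A + B)`,
`P + S_1 = (A - B)^* (A - B)`, `P - S_2 = (A + i B)^* (A + i B)`,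
`P + S_2 = (A - i B)^* (A - i B)`  (here `(i B)^* = - i B^*`). -/
theorem pP_add_sS (A B : Matrix ι ι ℂ) (c : Fin 3) :
    (pP A B + sS A B c).PosSemidef ∧ (pP A B - sS A B c).PosSemidef := by
  fin_cases c
  · show (pP A B + sS A B 0).PosSemidef ∧ (pP A B - sS A B 0).PosSemidef
    rw [p1_s0]
    unfold pP
    constructor
    · have h1 := (p1_psd A B 0 1).add (p1_psd A B 0 1)
      have h2 : Aᴴ * A + Bᴴ * B + (Bᴴ * B - Aᴴ * A) = (star (0 : ℂ) * 0) • (Aᴴ * A) + (star (0 : ℂ) * 1) • (Aᴴ * B) +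
          (star (1 : ℂ) * 0) • (Bᴴ * A) + (star (1 : ℂ) * 1) • (Bᴴ * B) + ((star (0 : ℂ) * 0) • (Aᴴ * A) +
          (star (0 : ℂ) * 1) • (Aᴴ * B) + (star (1 : ℂ) * 0) • (Bᴴ * A) + (star (1 : ℂ) * 1) • (Bᴴ * B)) := by
        simp only [star_zero, star_one]
        module
      rw [h2]
      exact h1
    · have h1 := (p1_psd A B 1 0).add (p1_psd A B 1 0)
      have h2 : Aᴴ * A + Bᴴ * B - (Bᴴ * B - Aᴴ * A) = (star (1 : ℂ) * 1) • (Aᴴ * A) + (star (1 : ℂ) * 0) • (Aᴴ * B) +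
          (star (0 : ℂ) * 1) • (Bᴴ * A) + (star (0 : ℂ) * 0) • (Bᴴ * B) + ((star (1 : ℂ) * 1) • (Aᴴ * A) +
          (star (1 : ℂ) * 0) • (Aᴴ * B) + (star (0 : ℂ) * 1) • (Bᴴ * A) + (star (0 : ℂ) * 0) • (Bᴴ * B)) := by
        simp only [star_zero, star_one]
        module
      rw [h2]
      exact h1
  · show (pP A B + sS A B 1).PosSemidef ∧ (pP A B - sS A B 1).PosSemidef
    rw [p1_s1]
    unfold pP
    constructor
    · have h1 := p1_psd A B 1 (-1)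
      have h2 : Aᴴ * A + Bᴴ * B + -(Aᴴ * B + Bᴴ * A) = (star (1 : ℂ) * 1) • (Aᴴ * A) + (star (1 : ℂ) * -1) • (Aᴴ * B) +
          (star (-1 : ℂ) * 1) • (Bᴴ * A) + (star (-1 : ℂ) * -1) • (Bᴴ * B) := by
        simp only [star_neg, star_one]
        module
      rw [h2]
      exact h1
    · have h1 := p1_psd A B 1 1
      have h2 : Aᴴ * A + Bᴴ * B - -(Aᴴ * B + Bᴴ * A) = (star (1 : ℂ) * 1) • (Aᴴ * A) + (star (1 : ℂ) * 1) • (Aᴴ * B) +
          (star (1 : ℂ) * 1) • (Bᴴ * A) + (star (1 : ℂ) * 1) • (Bᴴ * B) := by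
        simp only [star_one]
        module
      rw [h2]
      exact h1
  · show (pP A B + sS A B 2).PosSemidef ∧ (pP A B - sS A B 2).PosSemidef
    rw [p1_s2]
    unfold pP
    constructor
    · have h1 := p1_psd A B 1 (-Complex.I)
      have h2 : Aᴴ * A + Bᴴ * B + (-Complex.I) • (Aᴴ * B - Bᴴ * A) = (star (1 : ℂ) * 1) • (Aᴴ * A) +
          (star (1 : ℂ) * -Complex.I) • (Aᴴ * B) +
          (star (-Complex.I) * 1) • (Bᴴ * A) + (star (-Complex.I) * -Complex.I) • (Bᴴ * B) := by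
        have e : star (-Complex.I) * -Complex.I = 1 := by simp
        rw [e]
        simp only [star_neg, star_one, Complex.star_def, Complex.conj_I, neg_neg]
        module
      rw [h2]
      exact h1
    · have h1 := p1_psd A B 1 Complex.I
      have h2 : Aᴴ * A + Bᴴ * B - (-Complex.I) • (Aᴴ * B - Bᴴ * A) = (star (1 : ℂ) * 1) • (Aᴴ * A) +
          (star (1 : ℂ) * Complex.I) • (Aᴴ * B) +
          (star Complex.I * 1) • (Bᴴ * A) + (star Complex.I * Complex.I) • (Bᴴ * B) := by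
        have e : star Complex.I * Complex.I = 1 := by simp
        rw [e]
        simp only [star_one, Complex.star_def, Complex.conj_I]
        module
      rw [h2]
      exact h1

/-- `rho ± S_c ≥ 0`.
PROOF. As before: `rho - S_0 = 2 (1 - B^* B)` (`Con2` with `(a,b) = (0,1)`),
`rho + S_0 = 2 (1 - A^* A)`, `rho + S_1 = 2 - (A + B)^* (A + B)` (`Con2` with `(1,1)`),
`rho - S_1 = 2 - (A - B)^* (A - B)`, `rho ± S_2 = 2 - (A ± i B)^* (A ± i B)`. -/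
theorem rh_add_sS {A B : Matrix ι ι ℂ} (h : Con2 A B) (c : Fin 3) :
    (rh A B + sS A B c).PosSemidef ∧ (rh A B - sS A B c).PosSemidef := by
  fin_cases c
  · show (rh A B + sS A B 0).PosSemidef ∧ (rh A B - sS A B 0).PosSemidef
    rw [p1_s0]
    unfold rh pP
    constructor
    · have h1 := (p1_con h 1 0).add (p1_con h 1 0)
      have h2 : (2 : ℂ) • (1 : Matrix ι ι ℂ) - (Aᴴ * A + Bᴴ * B) + (Bᴴ * B - Aᴴ * A) =
          ((((‖(1 : ℂ)‖ ^ 2 + ‖(0 : ℂ)‖ ^ 2 : ℝ) : ℂ) • (1 : Matrix ι ι ℂ)) -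
          ((star (1 : ℂ) * 1) • (Aᴴ * A) + (star (1 : ℂ) * 0) • (Aᴴ * B) +
          (star (0 : ℂ) * 1) • (Bᴴ * A) + (star (0 : ℂ) * 0) • (Bᴴ * B))) +
          ((((‖(1 : ℂ)‖ ^ 2 + ‖(0 : ℂ)‖ ^ 2 : ℝ) : ℂ) • (1 : Matrix ι ι ℂ)) -
          ((star (1 : ℂ) * 1) • (Aᴴ * A) + (star (1 : ℂ) * 0) • (Aᴴ * B) +
          (star (0 : ℂ) * 1) • (Bᴴ * A) + (star (0 : ℂ) * 0) • (Bᴴ * B))) := by
        have e : ((‖(1 : ℂ)‖ ^ 2 + ‖(0 : ℂ)‖ ^ 2 : ℝ) : ℂ) = 1 := by simp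
        rw [e]
        simp only [star_zero, star_one]
        module
      rw [h2]
      exact h1
    · have h1 := (p1_con h 0 1).add (p1_con h 0 1)
      have h2 : (2 : ℂ) • (1 : Matrix ι ι ℂ) - (Aᴴ * A + Bᴴ * B) - (Bᴴ * B - Aᴴ * A) =
          ((((‖(0 : ℂ)‖ ^ 2 + ‖(1 : ℂ)‖ ^ 2 : ℝ) : ℂ) • (1 : Matrix ι ι ℂ)) -
          ((star (0 : ℂ) * 0) • (Aᴴ * A) + (star (0 : ℂ) * 1) • (Aᴴ * B) +
          (star (1 : ℂ) * 0) • (Bᴴ * A) + (star (1 : ℂ) * 1) • (Bᴴ * B))) +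
          ((((‖(0 : ℂ)‖ ^ 2 + ‖(1 : ℂ)‖ ^ 2 : ℝ) : ℂ) • (1 : Matrix ι ι ℂ)) -
          ((star (0 : ℂ) * 0) • (Aᴴ * A) + (star (0 : ℂ) * 1) • (Aᴴ * B) +
          (star (1 : ℂ) * 0) • (Bᴴ * A) + (star (1 : ℂ) * 1) • (Bᴴ * B))) := by
        have e : ((‖(0 : ℂ)‖ ^ 2 + ‖(1 : ℂ)‖ ^ 2 : ℝ) : ℂ) = 1 := by simp
        rw [e]
        simp only [star_zero, star_one]
        module
      rw [h2]
      exact h1
  · show (rh A B + sS A B 1).PosSemidef ∧ (rh A B - sS A B 1).PosSemidef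
    rw [p1_s1]
    unfold rh pP
    constructor
    · have h1 := p1_con h 1 1
      have h2 : (2 : ℂ) • (1 : Matrix ι ι ℂ) - (Aᴴ * A + Bᴴ * B) + -(Aᴴ * B + Bᴴ * A) =
          (((‖(1 : ℂ)‖ ^ 2 + ‖(1 : ℂ)‖ ^ 2 : ℝ) : ℂ) • (1 : Matrix ι ι ℂ)) -
          ((star (1 : ℂ) * 1) • (Aᴴ * A) + (star (1 : ℂ) * 1) • (Aᴴ * B) +
          (star (1 : ℂ) * 1) • (Bᴴ * A) + (star (1 : ℂ) * 1) • (Bᴴ * B)) := by
        have e : ((‖(1 : ℂ)‖ ^ 2 + ‖(1 : ℂ)‖ ^ 2 : ℝ) : ℂ) = 2 := by norm_num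
        rw [e]
        simp only [star_one]
        module
      rw [h2]
      exact h1
    · have h1 := p1_con h 1 (-1)
      have h2 : (2 : ℂ) • (1 : Matrix ι ι ℂ) - (Aᴴ * A + Bᴴ * B) - -(Aᴴ * B + Bᴴ * A) =
          (((‖(1 : ℂ)‖ ^ 2 + ‖(-1 : ℂ)‖ ^ 2 : ℝ) : ℂ) • (1 : Matrix ι ι ℂ)) -
          ((star (1 : ℂ) * 1) • (Aᴴ * A) + (star (1 : ℂ) * -1) • (Aᴴ * B) +
          (star (-1 : ℂ) * 1) • (Bᴴ * A) + (star (-1 : ℂ) * -1) • (Bᴴ * B)) := by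
        have e : ((‖(1 : ℂ)‖ ^ 2 + ‖(-1 : ℂ)‖ ^ 2 : ℝ) : ℂ) = 2 := by norm_num
        rw [e]
        simp only [star_neg, star_one]
        module
      rw [h2]
      exact h1
  · show (rh A B + sS A B 2).PosSemidef ∧ (rh A B - sS A B 2).PosSemidef
    rw [p1_s2]
    unfold rh pP
    constructor
    · have h1 := p1_con h 1 Complex.I
      have h2 : (2 : ℂ) • (1 : Matrix ι ι ℂ) - (Aᴴ * A + Bᴴ * B) + (-Complex.I) • (Aᴴ * B - Bᴴ * A) =
          (((‖(1 : ℂ)‖ ^ 2 + ‖Complex.I‖ ^ 2 : ℝ) : ℂ) • (1 : Matrix ι ι ℂ)) -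
          ((star (1 : ℂ) * 1) • (Aᴴ * A) + (star (1 : ℂ) * Complex.I) • (Aᴴ * B) +
          (star Complex.I * 1) • (Bᴴ * A) + (star Complex.I * Complex.I) • (Bᴴ * B)) := by
        have e : ((‖(1 : ℂ)‖ ^ 2 + ‖Complex.I‖ ^ 2 : ℝ) : ℂ) = 2 := by norm_num
        have e' : star Complex.I * Complex.I = 1 := by simp
        rw [e, e']
        simp only [star_one, Complex.star_def, Complex.conj_I]
        module
      rw [h2]
      exact h1
    · have h1 := p1_con h 1 (-Complex.I)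
      have h2 : (2 : ℂ) • (1 : Matrix ι ι ℂ) - (Aᴴ * A + Bᴴ * B) - (-Complex.I) • (Aᴴ * B - Bᴴ * A) =
          (((‖(1 : ℂ)‖ ^ 2 + ‖-Complex.I‖ ^ 2 : ℝ) : ℂ) • (1 : Matrix ι ι ℂ)) -
          ((star (1 : ℂ) * 1) • (Aᴴ * A) + (star (1 : ℂ) * -Complex.I) • (Aᴴ * B) +
          (star (-Complex.I) * 1) • (Bᴴ * A) + (star (-Complex.I) * -Complex.I) • (Bᴴ * B)) := by
        have e : ((‖(1 : ℂ)‖ ^ 2 + ‖-Complex.I‖ ^ 2 : ℝ) : ℂ) = 2 := by norm_num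
        have e' : star (-Complex.I) * -Complex.I = 1 := by simp
        rw [e, e']
        simp only [star_neg, star_one, Complex.star_def, Complex.conj_I, neg_neg]
        module
      rw [h2]
      exact h1

end Pool.Agent.H25A
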