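import Pool.Agent.Lib.H25A.Defs
import Pool.Agent.Lib.H25A.B2
import Pool.Agent.Lib.H25A.P1

/-! Chunk P2 (S/M). -/

namespace Pool.Agent.H25A

open Matrix
open scoped ComplexOrder

variable {ι : Type*} [Fintype ι] [DecidableEq ι]

/-- `S_c^2 ≤ 2 rho - rho^2`.
PROOF. `R = (rho + S)/2` and `R' = (rho - S)/2` satisfy `R, R' ≥ 0` (P1) and
`1 - R = (P - S)/2 ≥ 0`, `1 - R' = (P + S)/2 ≥ 0` (`rho = 2 - P`).  By B2 `R^2 ≤ R`, `R'^2 ≤ R'`;
add: `R + R' = rho`, `R^2 + R'^2 = (rho^2 + S^2)/2`. -/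
theorem sS_sq_le {A B : Matrix ι ι ℂ} (h : Con2 A B) (c : Fin 3) :
    ((2 : ℂ) • rh A B - rh A B * rh A B - sS A B c * sS A B c).PosSemidef := by
  have hhalf : (0 : ℂ) ≤ 1 / 2 := by
    rw [show (1 / 2 : ℂ) = ((1 / 2 : ℝ) : ℂ) by push_cast; ring]
    exact_mod_cast (by norm_num : (0 : ℝ) ≤ 1 / 2)
  have htwo : (0 : ℂ) ≤ 2 := by
    rw [show (2 : ℂ) = ((2 : ℝ) : ℂ) by push_cast; ring]
    exact_mod_cast (by norm_num : (0 : ℝ) ≤ 2)
  have hr := rh_add_sS h c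
  have hp := pP_add_sS A B c
  have e1 : (1 : Matrix ι ι ℂ) - (1 / 2 : ℂ) • (rh A B + sS A B c) =
      (1 / 2 : ℂ) • (pP A B - sS A B c) := by
    unfold rh
    module
  have e2 : (1 : Matrix ι ι ℂ) - (1 / 2 : ℂ) • (rh A B - sS A B c) =
      (1 / 2 : ℂ) • (pP A B + sS A B c) := by
    unfold rh
    module
  have q1 := effect_sq (hr.1.smul hhalf) (by rw [e1]; exact hp.2.smul hhalf)
  have q2 := effect_sq (hr.2.smul hhalf) (by rw [e2]; exact hp.1.smul hhalf)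
  have q3 := (q1.add q2).smul htwo
  have e3 : (2 : ℂ) • rh A B - rh A B * rh A B - sS A B c * sS A B c =
      (2 : ℂ) • ((1 / 2 : ℂ) • (rh A B + sS A B c) -
        (1 / 2 : ℂ) • (rh A B + sS A B c) * (1 / 2 : ℂ) • (rh A B + sS A B c) +
        ((1 / 2 : ℂ) • (rh A B - sS A B c) -
        (1 / 2 : ℂ) • (rh A B - sS A B c) * (1 / 2 : ℂ) • (rh A B - sS A B c))) := by
    rw [smul_mul_smul_comm, smul_mul_smul_comm, add_mul, mul_add, mul_add, sub_mul, mul_sub, mul_sub]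
    module
  rw [e3]
  exact q3

end Pool.Agent.H25A
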