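import Pool.Agent.Lib.H25A.Defs
import Pool.Agent.Lib.H25A.P1

/-! Chunk P3 (M). -/

namespace Pool.Agent.H25A

open Matrix
open scoped ComplexOrder

variable {ι : Type*} [Fintype ι] [DecidableEq ι]

theorem le_one_swap {M : Matrix ι ι ℂ} (h : (1 - Mᴴ * M).PosSemidef) :
    (1 - M * Mᴴ).PosSemidef := by
  let inv1 : Invertible (1 : Matrix ι ι ℂ) := invertibleOne
  have h1 : (Matrix.fromBlocks (1 : Matrix ι ι ℂ) M Mᴴ 1).PosSemidef := by
    rw [Matrix.PosDef.fromBlocks₁₁ M 1 Matrix.PosDef.one]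
    rw [inv_one, Matrix.mul_one]
    exact h
  have h2 := (Matrix.PosDef.fromBlocks₂₂ 1 M Matrix.PosDef.one).mp h1
  rw [inv_one, Matrix.mul_one] at h2
  exact h2

/-- For a contractive pair `M, N`: `T T^* + T^* T ≤ M^* M + N^* N`, `T = M^* N`.
PROOF. `M M^* ≤ 1`, `N N^* ≤ 1` (from `M^* M ≤ 1`, `N^* N ≤ 1`, which are `Con2` at `(1,0)`,
`(0,1)`; for matrices `M^* M ≤ 1` iff `M M^* ≤ 1`: e.g. the block matrix
`[[1, M], [M^*, 1]]` is positive semidefinite iff each of the two holds,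
`Matrix.PosSemidef.fromBlocks₁₁`, `fromBlocks₂₂`; or: `1 - M M^*` has
`<x, (1 - M M^*) x> ≥ 0` since `|M^* x|^2 = <x, M M^* x> ≤ |x| |M M^* x| ≤ |x| |M^* x|`).
`T^* T = N^* (M M^*) N ≤ N^* N`, `T T^* = M^* (N N^*) M ≤ M^* M`. -/
theorem tt_le {M N : Matrix ι ι ℂ} (h : Con2 M N) :
    (Mᴴ * M + Nᴴ * N - (Mᴴ * N * (Nᴴ * M) + Nᴴ * M * (Mᴴ * N))).PosSemidef := by
  have hM : (1 - Mᴴ * M).PosSemidef := by
    have h1 := h 1 0
    simpa using h1
  have hN : (1 - Nᴴ * N).PosSemidef := by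
    have h1 := h 0 1
    simpa using h1
  have h1 := (le_one_swap hM).conjTranspose_mul_mul_same N
  have h2 := (le_one_swap hN).conjTranspose_mul_mul_same M
  have e : Mᴴ * M + Nᴴ * N - (Mᴴ * N * (Nᴴ * M) + Nᴴ * M * (Mᴴ * N)) =
      Mᴴ * (1 - N * Nᴴ) * M + Nᴴ * (1 - M * Mᴴ) * N := by
    noncomm_ring
  rw [e]
  exact h2.add h1

theorem con2_rot {A B : Matrix ι ι ℂ} (h : Con2 A B) (u c : ℂ) (hu : ‖u‖ = 1)
    (hc : ‖c‖ ^ 2 = 1 / 2) : Con2 (c • (A + u • B)) (c • (A - u • B)) := by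
  intro x y
  have h1 := h (c * (x + y)) (c * u * (x - y))
  have e1 : ‖c * (x + y)‖ ^ 2 + ‖c * u * (x - y)‖ ^ 2 = ‖x‖ ^ 2 + ‖y‖ ^ 2 := by
    have hp := parallelogram_law_with_norm ℂ x y
    rw [norm_mul, norm_mul, norm_mul, hu, mul_one, mul_pow, mul_pow, hc]
    nlinarith
  have e2 : (c * (x + y)) • A + (c * u * (x - y)) • B =
      x • (c • (A + u • B)) + y • (c • (A - u • B)) := by
    module
  rw [e1, e2] at h1
  exact h1

theorem rot_psd {A B : Matrix ι ι ℂ} (h : Con2 A B) (u : ℂ) (hu : ‖u‖ = 1)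
    (W : Matrix ι ι ℂ) (hW : W = Aᴴ * A - Bᴴ * B - u • (Aᴴ * B) + (star u) • (Bᴴ * A)) :
    ((2 : ℂ) • pP A B - (1 / 2 : ℂ) • (W * Wᴴ + Wᴴ * W)).PosSemidef := by
  obtain ⟨c, hc, hcc⟩ : ∃ c : ℂ, star c = c ∧ c * c = 1 / 2 := by
    refine ⟨(((Real.sqrt 2)⁻¹ : ℝ) : ℂ), by simp, ?_⟩
    rw [← Complex.ofReal_mul, ← mul_inv, Real.mul_self_sqrt (by norm_num)]
    norm_num
  have hcn : ‖c‖ ^ 2 = 1 / 2 := by
    have h1 : ‖c * c‖ = ‖(1 / 2 : ℂ)‖ := by rw [hcc]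
    rw [norm_mul] at h1
    rw [sq, h1]
    norm_num
  have huu : star u * u = 1 := by
    have h1 := Complex.conj_mul' u
    rw [hu] at h1
    simpa using h1
  have h1 := tt_le (con2_rot h u c hu hcn)
  have eM : (c • (A + u • B))ᴴ = c • (Aᴴ + (star u) • Bᴴ) := by
    rw [Matrix.conjTranspose_smul, Matrix.conjTranspose_add, Matrix.conjTranspose_smul, hc]
  have eN : (c • (A - u • B))ᴴ = c • (Aᴴ - (star u) • Bᴴ) := by
    rw [Matrix.conjTranspose_smul, Matrix.conjTranspose_sub, Matrix.conjTranspose_smul, hc]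
  have hWh : Wᴴ = Aᴴ * A - Bᴴ * B - (star u) • (Bᴴ * A) + u • (Aᴴ * B) := by
    rw [hW]
    simp only [Matrix.conjTranspose_add, Matrix.conjTranspose_sub, Matrix.conjTranspose_smul,
      Matrix.conjTranspose_mul, Matrix.conjTranspose_conjTranspose, star_star]
  have hsm : ∀ K L : Matrix ι ι ℂ, (c • K) * (c • L) = (1 / 2 : ℂ) • (K * L) := by
    intro K L
    rw [Matrix.smul_mul, Matrix.mul_smul, smul_smul, hcc]
  have e1 : (c • (A + u • B))ᴴ * (c • (A - u • B)) = (1 / 2 : ℂ) • W := by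
    rw [eM, hsm, hW]
    congr 1
    have : (Aᴴ + (star u) • Bᴴ) * (A - u • B) =
        Aᴴ * A - (star u * u) • (Bᴴ * B) - u • (Aᴴ * B) + (star u) • (Bᴴ * A) := by
      simp only [Matrix.add_mul, Matrix.mul_sub, Matrix.smul_mul, Matrix.mul_smul]
      module
    rw [this, huu, one_smul]
  have e2 : (c • (A - u • B))ᴴ * (c • (A + u • B)) = (1 / 2 : ℂ) • Wᴴ := by
    rw [eN, hsm, hWh]
    congr 1
    have : (Aᴴ - (star u) • Bᴴ) * (A + u • B) =
        Aᴴ * A - (star u * u) • (Bᴴ * B) - (star u) • (Bᴴ * A) + u • (Aᴴ * B) := by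
      simp only [Matrix.sub_mul, Matrix.mul_add, Matrix.smul_mul, Matrix.mul_smul]
      module
    rw [this, huu, one_smul]
  have e3 : (c • (A + u • B))ᴴ * (c • (A + u • B)) + (c • (A - u • B))ᴴ * (c • (A - u • B)) =
      pP A B := by
    rw [eM, eN, hsm, hsm]
    have e4 : (Aᴴ + (star u) • Bᴴ) * (A + u • B) =
        Aᴴ * A + (star u * u) • (Bᴴ * B) + u • (Aᴴ * B) + (star u) • (Bᴴ * A) := by
      simp only [Matrix.add_mul, Matrix.mul_add, Matrix.smul_mul, Matrix.mul_smul]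
      module
    have e5 : (Aᴴ - (star u) • Bᴴ) * (A - u • B) =
        Aᴴ * A + (star u * u) • (Bᴴ * B) - u • (Aᴴ * B) - (star u) • (Bᴴ * A) := by
      simp only [Matrix.sub_mul, Matrix.mul_sub, Matrix.smul_mul, Matrix.mul_smul]
      module
    rw [e4, e5, huu, one_smul]
    unfold pP
    module
  rw [e3, e1, e2] at h1
  have h2 := h1.add h1
  have e6 : (2 : ℂ) • pP A B - (1 / 2 : ℂ) • (W * Wᴴ + Wᴴ * W) =
      (pP A B - ((1 / 2 : ℂ) • W * ((1 / 2 : ℂ) • Wᴴ) + (1 / 2 : ℂ) • Wᴴ * ((1 / 2 : ℂ) • W))) +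
      (pP A B - ((1 / 2 : ℂ) • W * ((1 / 2 : ℂ) • Wᴴ) + (1 / 2 : ℂ) • Wᴴ * ((1 / 2 : ℂ) • W))) := by
    simp only [Matrix.smul_mul, Matrix.mul_smul]
    module
  rw [e6]
  exact h2

theorem sS_sq_add_12 {A B : Matrix ι ι ℂ} (h : Con2 A B) :
    ((2 : ℂ) • pP A B - (sS A B 1 * sS A B 1 + sS A B 2 * sS A B 2)).PosSemidef := by
  have h1 := tt_le h
  have h2 := h1.add h1
  have e : (2 : ℂ) • pP A B - (sS A B 1 * sS A B 1 + sS A B 2 * sS A B 2) =
      (Aᴴ * A + Bᴴ * B - (Aᴴ * B * (Bᴴ * A) + Bᴴ * A * (Aᴴ * B))) +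
      (Aᴴ * A + Bᴴ * B - (Aᴴ * B * (Bᴴ * A) + Bᴴ * A * (Aᴴ * B))) := by
    have hs1 : sS A B 1 = -(Aᴴ * B + Bᴴ * A) := rfl
    have hs2 : sS A B 2 = (-Complex.I) • (Aᴴ * B - Bᴴ * A) := rfl
    have e7 : ∀ T T' : Matrix ι ι ℂ, (-(T + T')) * (-(T + T')) +
        ((-Complex.I) • (T - T')) * ((-Complex.I) • (T - T')) =
        (2 : ℂ) • (T * T' + T' * T) := by
      intro T T'
      rw [Matrix.smul_mul, Matrix.mul_smul, smul_smul]
      have : -Complex.I * -Complex.I = -1 := by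
        rw [neg_mul_neg, Complex.I_mul_I]
      rw [this]
      simp only [neg_mul_neg, Matrix.add_mul, Matrix.mul_add, Matrix.sub_mul, Matrix.mul_sub]
      module
    rw [hs1, hs2, e7]
    unfold pP
    module
  rw [e]
  exact h2

theorem sS_sq_add_02 {A B : Matrix ι ι ℂ} (h : Con2 A B) :
    ((2 : ℂ) • pP A B - (sS A B 0 * sS A B 0 + sS A B 2 * sS A B 2)).PosSemidef := by
  have hs0 : sS A B 0 = Bᴴ * B - Aᴴ * A := rfl
  have hs2 : sS A B 2 = (-Complex.I) • (Aᴴ * B - Bᴴ * A) := rfl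
  have hI : Complex.I * Complex.I = -1 := Complex.I_mul_I
  have h1 := rot_psd h 1 (by simp) _ rfl
  have hW : Aᴴ * A - Bᴴ * B - (1 : ℂ) • (Aᴴ * B) + (star (1 : ℂ)) • (Bᴴ * A) =
      -(sS A B 0 + Complex.I • sS A B 2) := by
    rw [hs0, hs2, smul_smul, mul_neg, hI, star_one]
    module
  have h0 := (sS_herm A B 0).eq
  have h2 := (sS_herm A B 2).eq
  have hWh : (-(sS A B 0 + Complex.I • sS A B 2))ᴴ = -(sS A B 0 - Complex.I • sS A B 2) := by
    rw [Matrix.conjTranspose_neg, Matrix.conjTranspose_add, Matrix.conjTranspose_smul, h0, h2]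
    have : star Complex.I = - Complex.I := Complex.conj_I
    rw [this]
    module
  rw [hW, hWh] at h1
  have e : ∀ S T : Matrix ι ι ℂ, (1 / 2 : ℂ) • ((-(S + Complex.I • T)) * (-(S - Complex.I • T)) +
      (-(S - Complex.I • T)) * (-(S + Complex.I • T))) = S * S + T * T := by
    intro S T
    simp only [neg_mul_neg, Matrix.add_mul, Matrix.mul_add, Matrix.sub_mul, Matrix.mul_sub,
      Matrix.smul_mul, Matrix.mul_smul]
    match_scalars <;> first | ring1 | linear_combination -hI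
  rw [e] at h1
  exact h1

theorem sS_sq_add_01 {A B : Matrix ι ι ℂ} (h : Con2 A B) :
    ((2 : ℂ) • pP A B - (sS A B 0 * sS A B 0 + sS A B 1 * sS A B 1)).PosSemidef := by
  have hs0 : sS A B 0 = Bᴴ * B - Aᴴ * A := rfl
  have hs1 : sS A B 1 = -(Aᴴ * B + Bᴴ * A) := rfl
  have hI : Complex.I * Complex.I = -1 := Complex.I_mul_I
  have hsI : star Complex.I = - Complex.I := Complex.conj_I
  have h1 := rot_psd h Complex.I (by simp) _ rfl
  have hW : Aᴴ * A - Bᴴ * B - Complex.I • (Aᴴ * B) + (star Complex.I) • (Bᴴ * A) =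
      -(sS A B 0 - Complex.I • sS A B 1) := by
    rw [hs0, hs1, hsI]
    module
  have h0 := (sS_herm A B 0).eq
  have h2 := (sS_herm A B 1).eq
  have hWh : (-(sS A B 0 - Complex.I • sS A B 1))ᴴ = -(sS A B 0 + Complex.I • sS A B 1) := by
    rw [Matrix.conjTranspose_neg, Matrix.conjTranspose_sub, Matrix.conjTranspose_smul, h0, h2]
    rw [hsI]
    module
  rw [hW, hWh] at h1
  have e : ∀ S T : Matrix ι ι ℂ, (1 / 2 : ℂ) • ((-(S - Complex.I • T)) * (-(S + Complex.I • T)) +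
      (-(S + Complex.I • T)) * (-(S - Complex.I • T))) = S * S + T * T := by
    intro S T
    simp only [neg_mul_neg, Matrix.add_mul, Matrix.mul_add, Matrix.sub_mul, Matrix.mul_sub,
      Matrix.smul_mul, Matrix.mul_smul]
    match_scalars <;> first | ring1 | linear_combination -hI
  rw [e] at h1
  exact h1

/-- `S_a^2 + S_b^2 ≤ 2 P` for `a ≠ b`.
PROOF. `{a,b} = {1,2}`: `S_1^2 + S_2^2 = 2 (T T^* + T^* T)` with `T = A^* B`; `tt_le`.
`{0,1}`: the pair `M = (A + i B)/√2`, `N = (A - i B)/√2` satisfies `Con2` (unitary change) and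
`M^* M + N^* N = P`, `M^* N = (1/2)(A^* - i B^*)(A - i B) = (1/2)(E_1 - E_2 - i (T + T^*))
= (1/2)(- S_0 + i S_1)`, so `M^* N N^* M + N^* M M^* N = (1/2)(S_0^2 + S_1^2)`.
`{0,2}`: the pair `M = (A + B)/√2`, `N = (A - B)/√2`:
`M^* N = (1/2)(E_1 - E_2 - T + T^*) = (1/2)(- S_0 - i S_2)`  (`S_2 = - i (T - T^*)`, so
`T - T^* = i S_2`). -/
theorem sS_sq_add_le {A B : Matrix ι ι ℂ} (h : Con2 A B) (a b : Fin 3) (hab : a ≠ b) :
    ((2 : ℂ) • pP A B - sS A B a * sS A B a - sS A B b * sS A B b).PosSemidef := by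
  have h01 := sS_sq_add_01 h
  have h02 := sS_sq_add_02 h
  have h12 := sS_sq_add_12 h
  rw [← sub_sub] at h01 h02 h12
  fin_cases a <;> fin_cases b
  · exact absurd rfl hab
  · exact h01
  · exact h02
  · rw [sub_right_comm]; exact h01
  · exact absurd rfl hab
  · exact h12
  · rw [sub_right_comm]; exact h02
  · rw [sub_right_comm]; exact h12
  · exact absurd rfl hab

end Pool.Agent.H25A
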