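import Pool.Agent.Lib.H25A.Defs
import Pool.Agent.Lib.H25A.P2
import Pool.Agent.Lib.H25A.P3

/-! Chunk P4 (S). -/

namespace Pool.Agent.H25A

open Matrix
open scoped ComplexOrder

variable {ι : Type*} [Fintype ι] [DecidableEq ι]

/-- `calA ≤ P`: sum of P3 over the three pairs: `2 (S_0^2 + S_1^2 + S_2^2) ≤ 6 P`. -/
theorem aA_le_pP {A B : Matrix ι ι ℂ} (h : Con2 A B) : (pP A B - aA A B).PosSemidef := by
  have h6 : (0 : ℂ) ≤ (1 / 6 : ℂ) := by
    have h0 : (0 : ℂ) ≤ ((1 / 6 : ℝ) : ℂ) := Complex.zero_le_real.mpr (by norm_num)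
    rwa [show ((1 / 6 : ℝ) : ℂ) = 1 / 6 by norm_num] at h0
  have e : pP A B - aA A B = (1 / 6 : ℂ) •
      (((2 : ℂ) • pP A B - sS A B 0 * sS A B 0 - sS A B 1 * sS A B 1) +
      ((2 : ℂ) • pP A B - sS A B 0 * sS A B 0 - sS A B 2 * sS A B 2) +
      ((2 : ℂ) • pP A B - sS A B 1 * sS A B 1 - sS A B 2 * sS A B 2)) := by
    rw [aA, Fin.sum_univ_three]
    module
  rw [e]
  exact (((sS_sq_add_le h 0 1 (by decide)).add (sS_sq_add_le h 0 2 (by decide))).add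
    (sS_sq_add_le h 1 2 (by decide))).smul h6

/-- `calA ≤ 2 rho - rho^2`: average of P2 over `c`. -/
theorem aA_le_rh {A B : Matrix ι ι ℂ} (h : Con2 A B) :
    ((2 : ℂ) • rh A B - rh A B * rh A B - aA A B).PosSemidef := by
  have h3 : (0 : ℂ) ≤ (1 / 3 : ℂ) := by
    have h0 : (0 : ℂ) ≤ ((1 / 3 : ℝ) : ℂ) := Complex.zero_le_real.mpr (by norm_num)
    rwa [show ((1 / 3 : ℝ) : ℂ) = 1 / 3 by norm_num] at h0
  have e : (2 : ℂ) • rh A B - rh A B * rh A B - aA A B = (1 / 3 : ℂ) •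
      (((2 : ℂ) • rh A B - rh A B * rh A B - sS A B 0 * sS A B 0) +
      ((2 : ℂ) • rh A B - rh A B * rh A B - sS A B 1 * sS A B 1) +
      ((2 : ℂ) • rh A B - rh A B * rh A B - sS A B 2 * sS A B 2)) := by
    rw [aA, Fin.sum_univ_three]
    module
  rw [e]
  exact (((sS_sq_le h 0).add (sS_sq_le h 1)).add (sS_sq_le h 2)).smul h3

end Pool.Agent.H25A
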