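import Pool.Agent.Lib.H25A.Defs
import Pool.Agent.Lib.H25A.B3

/-! Chunk P5 (S/M). -/

namespace Pool.Agent.H25A

open Matrix
open scoped ComplexOrder

variable {ι : Type*} [Fintype ι] [DecidableEq ι]

/-- The operator `ell = 1 + X^{-1} G_+ X^{-1}` for `G = X (rho - 1) X`.
PROOF. `G` is Hermitian, take `Gp, Gm, Q` from B3.  `X^{-1} Gp X^{-1}` is positive semidefinite
(`X^{-1}` Hermitian), so `ell ≥ 1 > 0`; `ell - rho = X^{-1} (Gp - G) X^{-1} = X^{-1} Gm X^{-1} ≥ 0`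
since `rho - 1 = X^{-1} G X^{-1}`; `X ell X = X X + Gp`.  (`X` is invertible:
`Matrix.PosDef.isUnit`.) -/
theorem ell_exists {X rho : Matrix ι ι ℂ} (hX : X.PosDef) (hr : rho.IsHermitian) :
    ∃ ell Gp Gm Q : Matrix ι ι ℂ, Gp.PosSemidef ∧ Gm.PosSemidef ∧ X * (rho - 1) * X = Gp - Gm ∧
      Q.IsHermitian ∧ Q * Q = Q ∧ Q * (Gp - Gm) = Gp ∧ (Gp - Gm) * Q = Gp ∧ Gp * Gm = 0 ∧
      Gm * Gp = 0 ∧
      ell.PosDef ∧ (ell - 1).PosSemidef ∧ (ell - rho).PosSemidef ∧ X * ell * X = X * X + Gp := by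
  have hXh : Xᴴ = X := hX.isHermitian
  have hrh : rhoᴴ = rho := hr
  have hG : (X * (rho - 1) * X).IsHermitian := by
    show (X * (rho - 1) * X)ᴴ = _
    rw [conjTranspose_mul, conjTranspose_mul, conjTranspose_sub, conjTranspose_one, hXh, hrh,
      Matrix.mul_assoc]
  obtain ⟨Gp, Gm, Q, h1, h2, h3, h4, h5, h6, h7, h8, h9⟩ := pm_parts hG
  have hu : IsUnit X.det := (Matrix.isUnit_iff_isUnit_det X).1 hX.isUnit
  obtain ⟨Y, hYX, hXY, hYh⟩ : ∃ Y : Matrix ι ι ℂ, Y * X = 1 ∧ X * Y = 1 ∧ Yᴴ = Y :=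
    ⟨X⁻¹, Matrix.nonsing_inv_mul X hu, Matrix.mul_nonsing_inv X hu, hX.isHermitian.inv⟩
  have hGp : (Y * Gp * Y).PosSemidef := by
    have h := h1.conjTranspose_mul_mul_same Y
    rwa [hYh] at h
  have hGm : (Y * Gm * Y).PosSemidef := by
    have h := h2.conjTranspose_mul_mul_same Y
    rwa [hYh] at h
  have e1 : Y * (Gp - Gm) * Y = rho - 1 := by
    rw [← h3]
    calc Y * (X * (rho - 1) * X) * Y = (Y * X) * (rho - 1) * (X * Y) := by
          simp only [Matrix.mul_assoc]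
      _ = rho - 1 := by rw [hYX, hXY, Matrix.one_mul, Matrix.mul_one]
  refine ⟨1 + Y * Gp * Y, Gp, Gm, Q, h1, h2, h3, h4, h5, ?_, ?_, h8, h9, ?_, ?_, ?_, ?_⟩
  · rw [← h3]; exact h6
  · rw [← h3]; exact h7
  · exact Matrix.PosDef.one.add_posSemidef hGp
  · rw [add_sub_cancel_left]
    exact hGp
  · have e2 : 1 + Y * Gp * Y - rho = Y * Gm * Y := by
      have e3 : Y * (Gp - Gm) * Y = Y * Gp * Y - Y * Gm * Y := by
        rw [Matrix.mul_sub, Matrix.sub_mul]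
      rw [e3] at e1
      have e4 : rho = 1 + (Y * Gp * Y - Y * Gm * Y) := by rw [e1]; abel
      rw [e4]
      abel
    rw [e2]
    exact hGm
  · calc X * (1 + Y * Gp * Y) * X = X * X + (X * Y) * Gp * (Y * X) := by
          rw [Matrix.mul_add, Matrix.add_mul, Matrix.mul_one]
          simp only [Matrix.mul_assoc]
      _ = X * X + Gp := by rw [hYX, hXY, Matrix.one_mul, Matrix.mul_one]

end Pool.Agent.H25A
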