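import Pool.Agent.Lib.H25A.Defs
import Pool.Agent.Lib.H25A.B1b
import Pool.Agent.Lib.H25A.B4

/-! Chunk P6 (M): the main inequality of a plane. -/

namespace Pool.Agent.H25A

open Matrix
open scoped ComplexOrder

variable {ι : Type*} [Fintype ι] [DecidableEq ι]

/-- `tr ((X X + Gp) calA) ≤ tr (rho X (2 - rho) X)` when `calA ≤ 2 - rho`, `calA ≤ 2 rho - rho^2`
and `Gp` is the positive part of `G = X (rho - 1) X`.
PROOF. Put `δ = rho - 1`, `B = 1 - calA`; `B - δ = (2 - rho) - calA ≥ 0` and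
`B - δ^2 = 2 rho - rho^2 - calA ≥ 0`.  Right side: `tr ((1 + δ) X (1 - δ) X) =
tr X^2 - tr (δ X δ X) = tr X^2 - tr (δ G)`.  Left side: `tr X^2 - tr (B X^2) + tr Gp - tr (B Gp)`.
So the claim is `tr Gp + tr (δ G) ≤ tr (B X^2) + tr (B Gp)`.
(1) `tr (B Gp) ≥ tr (δ Gp)` (B1b, `rtr_mul_le`).
(2) `tr (B X^2) = tr (X B X) = tr (Q X B X) + tr ((1 - Q) X B X) ≥ tr (Q X δ X)
+ tr ((1 - Q) X δ^2 X)` (`Q`, `1 - Q` are positive semidefinite, as `Q = Q^* Q`;
`X (B - δ) X`, `X (B - δ^2) X` are positive semidefinite).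
`tr (Q X δ X) = tr (Q G) = tr Gp`.  `X δ^2 X = G X^{-1} X^{-1} G`, so
`tr ((1 - Q) X δ^2 X) = tr (X^{-1} X^{-1} G (1 - Q) G) = tr (X^{-1} X^{-1} Gm Gm)`
(`(1 - Q) G = G - Gp = - Gm` and `G (1 - Q) = - Gm`, `(1 - Q) = (1 - Q)^2`).
(3) `tr (δ G) = tr (δ Gp) - tr (δ Gm)`, and with `δ = X^{-1} G X^{-1}`:
`- tr (δ Gm) = - tr (X^{-1} Gp X^{-1} Gm) + tr (X^{-1} Gm X^{-1} Gm) ≤ tr (X^{-1} Gm X^{-1} Gm)
≤ tr (X^{-1} X^{-1} Gm Gm)` (B1b `rtr_sandwich_nonneg`, and B4).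
Add (1), (2), (3). -/
theorem q_six {X rho A : Matrix ι ι ℂ} (hX : X.PosDef) (hr : rho.IsHermitian)
    {Gp Gm Q : Matrix ι ι ℂ} (hp : Gp.PosSemidef) (hm : Gm.PosSemidef)
    (hG : X * (rho - 1) * X = Gp - Gm) (hQ : Q.IsHermitian) (hQ2 : Q * Q = Q)
    (hQG : Q * (Gp - Gm) = Gp) (hGQ : (Gp - Gm) * Q = Gp)
    (hA1 : ((2 : ℂ) • 1 - rho - A).PosSemidef)
    (hA2 : ((2 : ℂ) • rho - rho * rho - A).PosSemidef) :
    rtr ((X * X + Gp) * A) ≤ rtr (rho * X * ((2 : ℂ) • 1 - rho) * X) := by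
  classical
  obtain ⟨δ, hδ⟩ : ∃ δ : Matrix ι ι ℂ, δ = rho - 1 := ⟨_, rfl⟩
  have hrho : rho = 1 + δ := by rw [hδ]; abel
  obtain ⟨Y, hXY, hYX, hY⟩ : ∃ Y : Matrix ι ι ℂ, X * Y = 1 ∧ Y * X = 1 ∧ Y.IsHermitian := by
    have hu : IsUnit X.det := (Matrix.isUnit_iff_isUnit_det X).mp hX.isUnit
    exact ⟨X⁻¹, Matrix.mul_nonsing_inv X hu, Matrix.nonsing_inv_mul X hu, hX.isHermitian.inv⟩
  have hXh : X.IsHermitian := hX.isHermitian
  rw [← hδ] at hG
  have hB1 : ((1 - A) - δ).PosSemidef := by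
    have : (1 - A) - δ = (2 : ℂ) • 1 - rho - A := by
      rw [hrho, two_smul]; abel
    rw [this]; exact hA1
  have hB2 : ((1 - A) - δ * δ).PosSemidef := by
    have : (1 - A) - δ * δ = (2 : ℂ) • rho - rho * rho - A := by
      rw [hrho, two_smul]; noncomm_ring
    rw [this]; exact hA2
  obtain ⟨B, hB⟩ : ∃ B : Matrix ι ι ℂ, B = 1 - A := ⟨_, rfl⟩
  have hAB : A = 1 - B := by rw [hB]; abel
  rw [← hB] at hB1 hB2
  have hδh : δ.IsHermitian := by
    rw [hδ]; exact hr.sub Matrix.isHermitian_one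
  -- projections are positive semidefinite
  have hproj : ∀ E : Matrix ι ι ℂ, E.IsHermitian → E * E = E → E.PosSemidef := by
    intro E hE hE2
    have h := Matrix.posSemidef_conjTranspose_mul_self E
    rw [hE.eq, hE2] at h
    exact h
  have hQp : Q.PosSemidef := hproj Q hQ hQ2
  have hQ1 : (1 - Q).PosSemidef := by
    refine hproj _ (Matrix.isHermitian_one.sub hQ) ?_
    have : (1 - Q) * (1 - Q) = 1 - Q - Q + Q * Q := by noncomm_ring
    rw [this, hQ2]; abel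
  -- right side
  have hR : rtr (rho * X * ((2 : ℂ) • 1 - rho) * X) = rtr (X * X) - rtr (δ * (Gp - Gm)) := by
    have e1 : rho * X * ((2 : ℂ) • 1 - rho) * X =
        X * X + δ * (X * X) - X * δ * X - δ * (X * δ * X) := by
      rw [hrho, two_smul]; noncomm_ring
    rw [e1, rtr_sub, rtr_sub, rtr_add, hG]
    have e2 : rtr (δ * (X * X)) = rtr (X * δ * X) := by
      rw [← Matrix.mul_assoc, rtr_mul_comm, ← Matrix.mul_assoc]
    rw [e2, hG]; ring
  -- left side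
  have hL : rtr ((X * X + Gp) * A) = rtr (X * X) - rtr (X * B * X) + rtr Gp - rtr (B * Gp) := by
    have e1 : (X * X + Gp) * A = X * X - X * (X * B) + Gp - Gp * B := by
      rw [hAB]; noncomm_ring
    rw [e1, rtr_sub, rtr_add, rtr_sub, rtr_mul_comm X (X * B), rtr_mul_comm Gp B]
  -- step 1
  have h1 : rtr (δ * Gp) ≤ rtr (B * Gp) := rtr_mul_le hB1 hp
  -- step 2
  have h2a : rtr Gp ≤ rtr (Q * X * B * X) := by
    have h := rtr_sandwich_nonneg hQp hB1 hXh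
    have e : Q * X * (B - δ) * X = Q * X * B * X - Q * (X * δ * X) := by noncomm_ring
    rw [e, hG, hQG, rtr_sub] at h
    linarith
  have h2b : rtr (Y * Y * (Gm * Gm)) ≤ rtr ((1 - Q) * X * B * X) := by
    have h := rtr_sandwich_nonneg hQ1 hB2 hXh
    have e : (1 - Q) * X * (B - δ * δ) * X =
        (1 - Q) * X * B * X - (1 - Q) * (X * δ * δ * X) := by noncomm_ring
    rw [e, rtr_sub] at h
    have e2 : X * δ * δ * X = (Gp - Gm) * Y * Y * (Gp - Gm) := by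
      rw [← hG]
      have : X * δ * X * Y * Y * (X * δ * X) = X * δ * (X * Y) * (Y * X) * δ * X := by
        noncomm_ring
      rw [this, hXY, hYX, Matrix.mul_one, Matrix.mul_one]
    have e3 : (1 - Q) * (Gp - Gm) = - Gm := by
      rw [Matrix.sub_mul, Matrix.one_mul, hQG]; abel
    have e4 : (Gp - Gm) * (1 - Q) = - Gm := by
      rw [Matrix.mul_sub, Matrix.mul_one, hGQ]; abel
    have e5 : (1 - Q) * (1 - Q) = 1 - Q := by
      have : (1 - Q) * (1 - Q) = 1 - Q - Q + Q * Q := by noncomm_ring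
      rw [this, hQ2]; abel
    have e6 : rtr ((1 - Q) * (X * δ * δ * X)) = rtr (Y * Y * (Gm * Gm)) := by
      rw [e2]
      calc rtr ((1 - Q) * ((Gp - Gm) * Y * Y * (Gp - Gm)))
          = rtr ((1 - Q) * (1 - Q) * ((Gp - Gm) * Y * Y * (Gp - Gm))) := by rw [e5]
        _ = rtr ((1 - Q) * ((1 - Q) * ((Gp - Gm) * Y * Y * (Gp - Gm)))) := by
            rw [Matrix.mul_assoc (1 - Q) (1 - Q)]
        _ = rtr (((1 - Q) * ((Gp - Gm) * Y * Y * (Gp - Gm))) * (1 - Q)) := rtr_mul_comm _ _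
        _ = rtr (((1 - Q) * (Gp - Gm)) * Y * Y * ((Gp - Gm) * (1 - Q))) := by
            congr 1; noncomm_ring
        _ = rtr (Gm * (Y * Y * Gm)) := by
            rw [e3, e4]; congr 1; noncomm_ring
        _ = rtr (Y * Y * Gm * Gm) := rtr_mul_comm _ _
        _ = rtr (Y * Y * (Gm * Gm)) := by rw [Matrix.mul_assoc (Y * Y)]
    rw [e6] at h
    linarith
  have h2 : rtr Gp + rtr (Y * Y * (Gm * Gm)) ≤ rtr (X * B * X) := by
    have e : X * B * X = Q * X * B * X + (1 - Q) * X * B * X := by noncomm_ring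
    rw [e, rtr_add]
    linarith
  -- step 3
  have h3 : rtr (δ * (Gp - Gm)) ≤ rtr (δ * Gp) + rtr (Y * Y * (Gm * Gm)) := by
    have hδY : δ = Y * (Gp - Gm) * Y := by
      rw [← hG]
      have : Y * (X * δ * X) * Y = (Y * X) * δ * (X * Y) := by noncomm_ring
      rw [this, hXY, hYX, Matrix.one_mul, Matrix.mul_one]
    have e1 : rtr (δ * (Gp - Gm)) = rtr (δ * Gp) - rtr (δ * Gm) := by
      rw [Matrix.mul_sub, rtr_sub]
    have e2 : rtr (δ * Gm) = rtr (Gm * Y * Gp * Y) - rtr (Y * Gm * Y * Gm) := by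
      have : δ * Gm = (Y * Gp * Y) * Gm - Y * Gm * Y * Gm := by
        rw [hδY]; noncomm_ring
      rw [this, rtr_sub, rtr_mul_comm (Y * Gp * Y) Gm]
      congr 2
      noncomm_ring
    have e3 := rtr_sandwich_nonneg hm hp hY
    have e4 := rtr_comm_le hY hm.isHermitian
    linarith
  rw [hR, hL]
  linarith

end Pool.Agent.H25A
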