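import Pool.Agent.Lib.H25A.Defs
import Pool.Agent.Lib.H25A.B1b
import Pool.Agent.Lib.H25A.P1

/-! Chunk P7 (S/M). -/

namespace Pool.Agent.H25A

open Matrix
open scoped ComplexOrder

variable {ι : Type*} [Fintype ι] [DecidableEq ι]

/-- `sbar ≤ J`.
PROOF. For each `c`, with `S = S_c`: `tr ((rho + S) X (P - S) X) ≥ 0` and
`tr ((rho - S) X (P + S) X) ≥ 0` (P1, B1b `rtr_sandwich_nonneg`); the sum of the two is
`2 tr (rho X P X) - 2 tr (S X S X)`.  Average over `c`. -/
theorem sbar_le_jJ {A B X : Matrix ι ι ℂ} (h : Con2 A B) (hX : X.IsHermitian) :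
    sbar A B X ≤ jJ A B X := by
  have key : ∀ c : Fin 3, rtr (sS A B c * X * sS A B c * X) ≤ rtr (rh A B * X * pP A B * X) := by
    intro c
    have h1 := rtr_sandwich_nonneg (rh_add_sS h c).1 (pP_add_sS A B c).2 hX
    have h2 := rtr_sandwich_nonneg (rh_add_sS h c).2 (pP_add_sS A B c).1 hX
    have e1 : (rh A B + sS A B c) * X * (pP A B - sS A B c) * X =
        rh A B * X * pP A B * X - rh A B * X * sS A B c * X + sS A B c * X * pP A B * X
          - sS A B c * X * sS A B c * X := by noncomm_ring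
    have e2 : (rh A B - sS A B c) * X * (pP A B + sS A B c) * X =
        rh A B * X * pP A B * X + rh A B * X * sS A B c * X - sS A B c * X * pP A B * X
          - sS A B c * X * sS A B c * X := by noncomm_ring
    rw [e1, rtr_sub, rtr_add, rtr_sub] at h1
    rw [e2, rtr_sub, rtr_sub, rtr_add] at h2
    linarith
  have hs : ∑ c : Fin 3, rtr (sS A B c * X * sS A B c * X) ≤ ∑ _c : Fin 3, rtr (rh A B * X * pP A B * X) :=
    Finset.sum_le_sum fun c _ => key c
  rw [Finset.sum_const, Finset.card_univ, Fintype.card_fin, nsmul_eq_mul] at hs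
  unfold sbar jJ
  push_cast at hs
  linarith

end Pool.Agent.H25A
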