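import Pool.Agent.Lib.H25A.Defs
import Pool.Agent.Lib.H25A.B5
import Pool.Agent.Lib.H25A.B6
import Pool.Agent.Lib.H25A.P1
import Pool.Agent.Lib.H25A.P4
import Pool.Agent.Lib.H25A.P5
import Pool.Agent.Lib.H25A.P6
import Pool.Agent.Lib.H25A.P7

/-! Chunk P8 (M): the theorem on planes. -/

namespace Pool.Agent.H25A

open Matrix
open scoped ComplexOrder

variable {ι : Type*} [Fintype ι] [DecidableEq ι]

/-- For a contractive pair and `X > 0` there is `0 ≤ Y ≤ rho`, `Y ≤ P` with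
`5 sbar ≤ 2 tr (Y X^2) + 3 J`.
PROOF. Take `ell, Gp, ..` from P5 with `rho = rh A B`, and `Y = (1/3) ∑_c S_c ell^{-1} S_c`.
`Y ≥ 0` is clear.  `S_c ell^{-1} S_c ≤ rho` by B5 (with P1), average: `Y ≤ rho`.
`S_c ell^{-1} S_c ≤ S_c^2` because `ell^{-1} ≤ 1` (from `ell ≥ 1`: B5 with `S = 1`, `rho = 1`
gives `1 - ell^{-1} ≥ 0`), so `Y ≤ calA ≤ P` (P4).
B6 summed over `c` (times 1/3): `2 sbar ≤ tr (Y X X) + tr (X ell X calA)`, and
`X ell X = X X + Gp`, P6 (with `A = calA`, P4; `2 - rho = P`): `tr (X ell X calA) ≤ J`.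
So `4 sbar ≤ 2 tr (Y X X) + 2 J`; add P7. -/
theorem plane {A B X : Matrix ι ι ℂ} (h : Con2 A B) (hX : X.PosDef) :
    ∃ Y : Matrix ι ι ℂ, Y.PosSemidef ∧ (rh A B - Y).PosSemidef ∧ (pP A B - Y).PosSemidef ∧
      5 * sbar A B X ≤ 2 * rtr (Y * (X * X)) + 3 * jJ A B X := by
  obtain ⟨ell, Gp, Gm, Q, hp, hm, hG, hQ, hQ2, hQG, hGQ, hpm, hmp, he, he1, her, hXe⟩ :=
    ell_exists hX (rh_herm A B)
  have hX' : X.IsHermitian := hX.1
  have hY1 : ∀ c, (rh A B - sS A B c * ell⁻¹ * sS A B c).PosSemidef := fun c =>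
    schur_le (sS_herm A B c) (rh_add_sS h c).1 (rh_add_sS h c).2 her he
  have hinv : (1 - ell⁻¹ : Matrix ι ι ℂ).PosSemidef := by
    have h1 : ((1 : Matrix ι ι ℂ) - 1 * ell⁻¹ * 1).PosSemidef := by
      refine schur_le Matrix.isHermitian_one ?_ ?_ he1 he
      · exact Matrix.PosSemidef.one.add Matrix.PosSemidef.one
      · rw [sub_self]
        exact Matrix.PosSemidef.zero
    rwa [Matrix.one_mul, Matrix.mul_one] at h1
  have hY2 : ∀ c, (sS A B c * sS A B c - sS A B c * ell⁻¹ * sS A B c).PosSemidef := by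
    intro c
    have h1 := hinv.conjTranspose_mul_mul_same (sS A B c)
    rw [(sS_herm A B c).eq] at h1
    have h2 : sS A B c * (1 - ell⁻¹) * sS A B c
        = sS A B c * sS A B c - sS A B c * ell⁻¹ * sS A B c := by noncomm_ring
    rwa [h2] at h1
  have hY0 : ∀ c, (sS A B c * ell⁻¹ * sS A B c).PosSemidef := by
    intro c
    have h1 := he.inv.posSemidef.conjTranspose_mul_mul_same (sS A B c)
    rwa [(sS_herm A B c).eq] at h1
  have h3 : (0 : ℂ) ≤ (1 / 3 : ℂ) := by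
    rw [show (1 / 3 : ℂ) = ((1 / 3 : ℝ) : ℂ) by norm_num]
    exact Complex.zero_le_real.2 (by norm_num)
  refine ⟨(1 / 3 : ℂ) • ∑ c, sS A B c * ell⁻¹ * sS A B c, ?_, ?_, ?_, ?_⟩
  · exact (Matrix.posSemidef_sum _ fun c _ => hY0 c).smul h3
  · have h1 := (Matrix.posSemidef_sum Finset.univ fun c _ => hY1 c).smul h3
    have h2 : (1 / 3 : ℂ) • ∑ c, (rh A B - sS A B c * ell⁻¹ * sS A B c)
        = rh A B - (1 / 3 : ℂ) • ∑ c, sS A B c * ell⁻¹ * sS A B c := by
      rw [Finset.sum_sub_distrib, smul_sub, Finset.sum_const, Finset.card_univ, Fintype.card_fin,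
        ← Nat.cast_smul_eq_nsmul ℂ, smul_smul]
      norm_num
    rwa [h2] at h1
  · have h1 := (Matrix.posSemidef_sum Finset.univ fun c _ => hY2 c).smul h3
    have h2 : (1 / 3 : ℂ) • ∑ c, (sS A B c * sS A B c - sS A B c * ell⁻¹ * sS A B c)
        = aA A B - (1 / 3 : ℂ) • ∑ c, sS A B c * ell⁻¹ * sS A B c := by
      rw [Finset.sum_sub_distrib, smul_sub]
      rfl
    rw [h2] at h1
    have h4 := (aA_le_pP h).add h1
    rwa [sub_add_sub_cancel] at h4
  · have h1 : ∀ c, 2 * rtr (sS A B c * X * sS A B c * X)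
        ≤ rtr (sS A B c * ell⁻¹ * sS A B c * (X * X)) + rtr (X * ell * X * (sS A B c * sS A B c)) :=
      fun c => cauchy_ell (sS_herm A B c) hX' he
    have h2 := Finset.sum_le_sum fun c (_ : c ∈ (Finset.univ : Finset (Fin 3))) => h1 c
    rw [← Finset.mul_sum, Finset.sum_add_distrib] at h2
    have h4 : rtr (((1 / 3 : ℂ) • ∑ c, sS A B c * ell⁻¹ * sS A B c) * (X * X))
        = (1 / 3) * ∑ c, rtr (sS A B c * ell⁻¹ * sS A B c * (X * X)) := by
      rw [Matrix.smul_mul, show (1 / 3 : ℂ) = ((1 / 3 : ℝ) : ℂ) by norm_num, rtr_smul,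
        Finset.sum_mul, rtr_sum]
    have h5 : rtr (X * ell * X * aA A B)
        = (1 / 3) * ∑ c, rtr (X * ell * X * (sS A B c * sS A B c)) := by
      unfold aA
      rw [Matrix.mul_smul, show (1 / 3 : ℂ) = ((1 / 3 : ℝ) : ℂ) by norm_num, rtr_smul,
        Finset.mul_sum, rtr_sum]
    have h6 : rtr ((X * X + Gp) * aA A B) ≤ rtr (rh A B * X * ((2 : ℂ) • 1 - rh A B) * X) := by
      refine q_six hX (rh_herm A B) hp hm hG hQ hQ2 hQG hGQ ?_ (aA_le_rh h)
      have h7 : (2 : ℂ) • (1 : Matrix ι ι ℂ) - rh A B = pP A B := by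
        unfold rh
        abel
      rw [h7]
      exact aA_le_pP h
    have h8 : (2 : ℂ) • (1 : Matrix ι ι ℂ) - rh A B = pP A B := by
      unfold rh
      abel
    rw [h8, ← hXe, h5] at h6
    have h9 := sbar_le_jJ h hX'
    have h10 : sbar A B X = (1 / 3) * ∑ c, rtr (sS A B c * X * sS A B c * X) := rfl
    have h11 : jJ A B X = rtr (rh A B * X * pP A B * X) := rfl
    rw [h4]
    rw [← h11] at h6
    linarith

end Pool.Agent.H25A
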