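import Pool.Agent.Lib.H25A.Defs
import Pool.Agent.Lib.H25A.P8
import Pool.Agent.Lib.H25A.F1
import Pool.Agent.Lib.H25A.F2

/-! Chunk F3 (S/M): the inequality of a frame. -/

namespace Pool.Agent.H25A

open Matrix
open scoped ComplexOrder

variable {ι : Type*} [Fintype ι] [DecidableEq ι]

theorem f3_con2_01 {A : Fin 4 → Matrix ι ι ℂ} (hA : Con A) : Con2 (A 0) (A 1) := by
  intro a b
  have h := hA ![a, b, 0, 0]
  simp only [Fin.sum_univ_four] at h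
  simpa using h

theorem f3_con2_23 {A : Fin 4 → Matrix ι ι ℂ} (hA : Con A) : Con2 (A 2) (A 3) := by
  intro a b
  have h := hA ![0, 0, a, b]
  simp only [Fin.sum_univ_four] at h
  simpa using h

/-- PROOF. P8 for `(A 0, A 1)` and `(A 2, A 3)` (`Con2` is `Con` at `(a,b,0,0)`, `(0,0,a,b)`,
`Fin.sum_univ_four`) gives `Y`, `Y'`; with `D = tr (rho X rho X)`, F2 gives
`5 sbar = (10/3) K - (5/3) D`, `J = 2 tr (rho X X) - D`, so `5 sbar ≤ 2 tr (Y X X) + 3 J` is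
`tr (Y X X) ≥ (5/3) K + (2/3) D - 3 tr (rho X X)`.  Insert this twice in F1
(`r = rho`, `r' = rho'`; `2 - rho - Y = P - Y`):
`0 ≤ 2 tr X^2 + 2 tr ((rho + rho') X^2) + 2 tr (rho X rho' X) - (5/3)(K + K') - (2/3)(D + D')`. -/
theorem frame {A : Fin 4 → Matrix ι ι ℂ} (hA : Con A) {X : Matrix ι ι ℂ} (hX : X.PosDef) :
    (5 / 6) * (kK (A 0) (A 1) X + kK (A 2) (A 3) X)
      + (1 / 3) * (rtr (rh (A 0) (A 1) * X * rh (A 0) (A 1) * X)
        + rtr (rh (A 2) (A 3) * X * rh (A 2) (A 3) * X))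
      ≤ rtr (X * X) + rtr (rh (A 0) (A 1) * (X * X)) + rtr (rh (A 2) (A 3) * (X * X))
        + rtr (rh (A 0) (A 1) * X * rh (A 2) (A 3) * X) := by
  obtain ⟨Y, hY0, hY1, hY2, hY⟩ := plane (f3_con2_01 hA) hX
  obtain ⟨Y', hY0', hY1', hY2', hY'⟩ := plane (f3_con2_23 hA) hX
  have h2 : ((2 : ℂ) • 1 - rh (A 0) (A 1) - Y).PosSemidef := by
    have : (2 : ℂ) • 1 - rh (A 0) (A 1) - Y = pP (A 0) (A 1) - Y := by
      unfold rh
      abel
    rw [this]
    exact hY2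
  have h2' : ((2 : ℂ) • 1 - rh (A 2) (A 3) - Y').PosSemidef := by
    have : (2 : ℂ) • 1 - rh (A 2) (A 3) - Y' = pP (A 2) (A 3) - Y' := by
      unfold rh
      abel
    rw [this]
    exact hY2'
  have hc := certificate hX.isHermitian hY0 hY1 h2 hY0' hY1' h2'
  have k1 := kK_eq (A 0) (A 1) X
  have k2 := kK_eq (A 2) (A 3) X
  have j1 := jJ_eq (A 0) (A 1) X
  have j2 := jJ_eq (A 2) (A 3) X
  rw [j1] at hY
  rw [j2] at hY'
  linarith

end Pool.Agent.H25A
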