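import Pool.Agent.Lib.H25A.Defs
import Pool.Agent.Lib.H25A.F3
import Pool.Agent.Lib.H25A.B1b

/-! Chunk F4 (M): the same with signs. -/

namespace Pool.Agent.H25A

open Matrix
open scoped ComplexOrder

variable {ι : Type*} [Fintype ι] [DecidableEq ι]

/-- Cyclicity. -/
theorem f4_cyc (A X B : Matrix ι ι ℂ) : rtr (A * X * B * X) = rtr (B * X * A * X) := by
  have h := rtr_mul_comm (A * X) (B * X)
  rw [← Matrix.mul_assoc, ← Matrix.mul_assoc] at h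
  exact h

theorem f4_pair (A B X : Matrix ι ι ℂ) :
    rtr ((0 - Bᴴ * A) * X * (0 - Aᴴ * B) * X) = rtr (Aᴴ * B * X * (Bᴴ * A) * X) := by
  rw [f4_cyc]
  congr 1
  noncomm_ring

theorem f4_pair' (A B X : Matrix ι ι ℂ) :
    rtr ((0 - Aᴴ * B) * X * (0 - Bᴴ * A) * X) = rtr (Aᴴ * B * X * (Bᴴ * A) * X) := by
  congr 1
  noncomm_ring

theorem f4_S (A : Fin 4 → Matrix ι ι ℂ) (X : Matrix ι ι ℂ) :
    sT A X + ∑ i, ∑ j, dD i * dD j * rtr (rR A i j * X * rR A j i * X) = 2 * (kK (A 0) (A 1) X + kK (A 2) (A 3) X) := by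
  have h01 : rR A 0 1 = 0 - (A 1)ᴴ * A 0 := rfl
  have h10 : rR A 1 0 = 0 - (A 0)ᴴ * A 1 := rfl
  have h23 : rR A 2 3 = 0 - (A 3)ᴴ * A 2 := rfl
  have h32 : rR A 3 2 = 0 - (A 2)ᴴ * A 3 := rfl
  have h00 : rR A 0 0 = 1 - (A 0)ᴴ * A 0 := rfl
  have h11 : rR A 1 1 = 1 - (A 1)ᴴ * A 1 := rfl
  have h22 : rR A 2 2 = 1 - (A 2)ᴴ * A 2 := rfl
  have h33 : rR A 3 3 = 1 - (A 3)ᴴ * A 3 := rfl
  have g1 : rtr (rR A 0 1 * X * rR A 1 0 * X) = rtr ((A 0)ᴴ * A 1 * X * ((A 1)ᴴ * A 0) * X) := by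
    rw [h01, h10]
    exact f4_pair (A 0) (A 1) X
  have g2 : rtr (rR A 1 0 * X * rR A 0 1 * X) = rtr ((A 0)ᴴ * A 1 * X * ((A 1)ᴴ * A 0) * X) := by
    rw [h01, h10]
    exact f4_pair' (A 0) (A 1) X
  have g3 : rtr (rR A 2 3 * X * rR A 3 2 * X) = rtr ((A 2)ᴴ * A 3 * X * ((A 3)ᴴ * A 2) * X) := by
    rw [h23, h32]
    exact f4_pair (A 2) (A 3) X
  have g4 : rtr (rR A 3 2 * X * rR A 2 3 * X) = rtr ((A 2)ᴴ * A 3 * X * ((A 3)ᴴ * A 2) * X) := by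
    rw [h23, h32]
    exact f4_pair' (A 2) (A 3) X
  have d0 : dD 0 = 1 := rfl
  have d1 : dD 1 = 1 := rfl
  have d2 : dD 2 = -1 := rfl
  have d3 : dD 3 = -1 := rfl
  unfold sT kK
  simp only [Fin.sum_univ_four, d0, d1, d2, d3]
  rw [g1, g2, g3, g4, h00, h11, h22, h33]
  ring

/-- PROOF. `R_00 + R_11 = rho`, `R_22 + R_33 = rho'`, so `r = rho + rho'` and
`Δ = ∑ D_i R_ii = rho - rho'`; `D_i D_j = 1` for `i, j` in the same pair and `-1` else, so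
`S + k = 2 (K_01 + K_23)` where `K_01 = ∑_{i,j in {0,1}} tr (R_ij X R_ji X) = kK (A 0) (A 1) X`
(`R_01 = - (A 1)^* (A 0)`, `R_10 = - (A 0)^* (A 1)`; the two mixed terms are equal by cyclicity).
`tr (r X r X) + tr (Δ X Δ X) = 2 (D + D')`, `tr (r X r X) - tr (Δ X Δ X) = 4 tr (rho X rho' X)`
(cyclicity).  So the claim is F3. -/
theorem frame_signed {A : Fin 4 → Matrix ι ι ℂ} (hA : Con A) {X : Matrix ι ι ℂ} (hX : X.PosDef) :
    (5 / 12) * (sT A X + ∑ i, ∑ j, dD i * dD j * rtr (rR A i j * X * rR A j i * X))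
      + (1 / 6) * (rtr (rSum A * X * rSum A * X)
        + rtr ((∑ i, ((dD i : ℝ) : ℂ) • rR A i i) * X * (∑ i, ((dD i : ℝ) : ℂ) • rR A i i) * X))
      ≤ rtr (X * X) + rtr (rSum A * (X * X))
        + (1 / 4) * (rtr (rSum A * X * rSum A * X)
          - rtr ((∑ i, ((dD i : ℝ) : ℂ) • rR A i i) * X * (∑ i, ((dD i : ℝ) : ℂ) • rR A i i) * X)) := by
  have hr : rSum A = rh (A 0) (A 1) + rh (A 2) (A 3) := by
    unfold rSum rh pP rR
    rw [Fin.sum_univ_four]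
    simp only [if_true]
    rw [two_smul]
    abel
  have hd : (∑ i, ((dD i : ℝ) : ℂ) • rR A i i) = rh (A 0) (A 1) - rh (A 2) (A 3) := by
    unfold rh pP rR
    rw [Fin.sum_univ_four]
    have d0 : dD 0 = 1 := rfl
    have d1 : dD 1 = 1 := rfl
    have d2 : dD 2 = -1 := rfl
    have d3 : dD 3 = -1 := rfl
    rw [d0, d1, d2, d3]
    simp only [if_true, Complex.ofReal_one, Complex.ofReal_neg, one_smul, neg_smul]
    rw [two_smul]
    abel
  have hS := f4_S A X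
  have hf := frame hA hX
  rw [hr, hd]
  set P := rh (A 0) (A 1) with hP
  set Q := rh (A 2) (A 3) with hQ
  have c1 : rtr (Q * X * P * X) = rtr (P * X * Q * X) := f4_cyc Q X P
  have e1 : rtr ((P + Q) * X * (P + Q) * X) = rtr (P * X * P * X) + rtr (P * X * Q * X) + rtr (Q * X * P * X) + rtr (Q * X * Q * X) := by
    rw [← rtr_add, ← rtr_add, ← rtr_add]
    congr 1
    noncomm_ring
  have e2 : rtr ((P - Q) * X * (P - Q) * X) = rtr (P * X * P * X) - rtr (P * X * Q * X) - rtr (Q * X * P * X) + rtr (Q * X * Q * X) := by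
    rw [← rtr_sub, ← rtr_sub, ← rtr_add]
    congr 1
    noncomm_ring
  have e3 : rtr ((P + Q) * (X * X)) = rtr (P * (X * X)) + rtr (Q * (X * X)) := by
    rw [add_mul, rtr_add]
  rw [e1, e2, e3, c1, hS]
  linarith

end Pool.Agent.H25A
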