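import Pool.Agent.Lib.H25A.Defs

/-! Chunk G1 (M): the 15 Pauli matrices of two qubits, a projective 2-design. -/

namespace Pool.Agent.H25A

open Matrix
open scoped ComplexOrder

/-- The Pauli matrices. -/
noncomputable def sig : Fin 4 → Matrix (Fin 2) (Fin 2) ℂ :=
  ![1, !![0, 1; 1, 0], !![0, -Complex.I; Complex.I, 0], !![1, 0; 0, -1]]

theorem sig_herm (a : Fin 4) : (sig a)ᴴ = sig a := by
  fin_cases a
  · simp [sig]
  · ext i j; fin_cases i <;> fin_cases j <;> simp [sig, Matrix.conjTranspose_apply]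
  · ext i j; fin_cases i <;> fin_cases j <;> simp [sig, Matrix.conjTranspose_apply]
  · ext i j; fin_cases i <;> fin_cases j <;> simp [sig, Matrix.conjTranspose_apply]

theorem sig_sq (a : Fin 4) : sig a * sig a = 1 := by
  fin_cases a
  · simp [sig]
  · ext i j; fin_cases i <;> fin_cases j <;> simp [sig, Matrix.mul_apply, Fin.sum_univ_two]
  · ext i j; fin_cases i <;> fin_cases j <;> simp [sig, Matrix.mul_apply, Fin.sum_univ_two]
  · ext i j; fin_cases i <;> fin_cases j <;> simp [sig, Matrix.mul_apply, Fin.sum_univ_two]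

theorem sig_trace (a : Fin 4) (ha : a ≠ 0) : (sig a).trace = 0 := by
  fin_cases a
  · exact absurd rfl ha
  · simp [sig, Matrix.trace, Fin.sum_univ_two]
  · simp [sig, Matrix.trace, Fin.sum_univ_two]
  · simp [sig, Matrix.trace, Fin.sum_univ_two]

theorem sig_complete (i j k l : Fin 2) :
    ∑ a, sig a i j * sig a k l = if i = l ∧ j = k then 2 else 0 := by
  rw [Fin.sum_univ_four]
  fin_cases i <;> fin_cases j <;> fin_cases k <;> fin_cases l <;>
    simp [sig] <;> norm_num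

/-- `Fin 4` as a product. -/
def e4 : Fin 4 ≃ Fin 2 × Fin 2 := (finProdFinEquiv : Fin 2 × Fin 2 ≃ Fin (2 * 2)).symm

/-- There are 16 Hermitian matrices `G_ab` in `M_4` with `G_ab^2 = 1`, `G_00 = 1`,
`tr G_ab = 0` for `(a,b) ≠ (0,0)` and `∑_{ab} (G_ab)_{ij} (G_ab)_{kl} = 4 δ_il δ_jk`.
PROOF. `σ_0 = 1`, `σ_1 = !![0,1;1,0]`, `σ_2 = !![0,-i;i,0]`, `σ_3 = !![1,0;0,-1]` satisfy
`σ_a^* = σ_a`, `σ_a^2 = 1`, `tr σ_a = 0` (`a ≠ 0`),
`∑_a (σ_a)_{ij} (σ_a)_{kl} = 2 δ_il δ_jk`  (16 cases, `fin_cases` and `simp`).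
`G_ab = (σ_a ⊗ σ_b)` (`Matrix.kroneckerMap`, reindexed by `finProdFinEquiv : Fin 2 × Fin 2 ≃ Fin 4`,
or write `G_ab i j = σ_a (i / 2) (j / 2) * σ_b (i % 2) (j % 2)`). -/
theorem pauli : ∃ G : Fin 4 → Fin 4 → Matrix (Fin 4) (Fin 4) ℂ,
    (∀ a b, (G a b).IsHermitian) ∧ (∀ a b, G a b * G a b = 1) ∧ G 0 0 = 1 ∧
    (∀ a b, ¬ (a = 0 ∧ b = 0) → (G a b).trace = 0) ∧
    (∀ i j k l, ∑ a, ∑ b, G a b i j * G a b k l = if i = l ∧ j = k then 4 else 0) := by
  refine ⟨fun a b => (Matrix.kroneckerMap (fun x y => x * y) (sig a) (sig b)).submatrix e4 e4, ?_, ?_, ?_, ?_, ?_⟩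
  · intro a b
    unfold Matrix.IsHermitian
    rw [Matrix.conjTranspose_submatrix, Matrix.conjTranspose_kronecker, sig_herm, sig_herm]
  · intro a b
    rw [Matrix.submatrix_mul_equiv, ← Matrix.mul_kronecker_mul, sig_sq, sig_sq,
      Matrix.one_kronecker_one, Matrix.submatrix_one_equiv]
  · have h0 : sig 0 = 1 := rfl
    show (Matrix.kroneckerMap (fun x y => x * y) (sig 0) (sig 0)).submatrix e4 e4 = 1
    rw [h0]
    exact (congrArg (fun M : Matrix (Fin 2 × Fin 2) (Fin 2 × Fin 2) ℂ => M.submatrix e4 e4)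
      (Matrix.one_kronecker_one (α := ℂ) (m := Fin 2) (n := Fin 2))).trans
      (Matrix.submatrix_one_equiv e4)
  · intro a b hab
    have h1 : ((Matrix.kroneckerMap (fun x y => x * y) (sig a) (sig b)).submatrix e4 e4).trace =
        (Matrix.kroneckerMap (fun x y => x * y) (sig a) (sig b)).trace := by
      unfold Matrix.trace
      exact Equiv.sum_comp e4 (fun i => (Matrix.kroneckerMap (fun x y => x * y) (sig a) (sig b)).diag i)
    show ((Matrix.kroneckerMap (fun x y => x * y) (sig a) (sig b)).submatrix e4 e4).trace = 0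
    rw [h1, Matrix.trace_kronecker]
    by_cases ha : a = 0
    · have hb : b ≠ 0 := fun hb => hab ⟨ha, hb⟩
      rw [sig_trace b hb, mul_zero]
    · rw [sig_trace a ha, zero_mul]
  · intro i j k l
    have h1 : ∀ a b : Fin 4,
        (Matrix.kroneckerMap (fun x y => x * y) (sig a) (sig b)).submatrix e4 e4 i j *
          (Matrix.kroneckerMap (fun x y => x * y) (sig a) (sig b)).submatrix e4 e4 k l =
        (sig a (e4 i).1 (e4 j).1 * sig a (e4 k).1 (e4 l).1) *
          (sig b (e4 i).2 (e4 j).2 * sig b (e4 k).2 (e4 l).2) := by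
      intro a b
      simp only [Matrix.submatrix_apply, Matrix.kroneckerMap_apply]
      ring
    simp only [h1]
    rw [← Fintype.sum_mul_sum, sig_complete, sig_complete]
    have h2 : (i = l ∧ j = k) ↔ (((e4 i).1 = (e4 l).1 ∧ (e4 j).1 = (e4 k).1) ∧
        ((e4 i).2 = (e4 l).2 ∧ (e4 j).2 = (e4 k).2)) := by
      constructor
      · rintro ⟨rfl, rfl⟩
        exact ⟨⟨rfl, rfl⟩, ⟨rfl, rfl⟩⟩
      · rintro ⟨⟨h1, h2⟩, ⟨h3, h4⟩⟩
        exact ⟨e4.injective (Prod.ext h1 h3), e4.injective (Prod.ext h2 h4)⟩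
    by_cases hc1 : (e4 i).1 = (e4 l).1 ∧ (e4 j).1 = (e4 k).1
    · by_cases hc2 : (e4 i).2 = (e4 l).2 ∧ (e4 j).2 = (e4 k).2
      · rw [if_pos hc1, if_pos hc2, if_pos (h2.mpr ⟨hc1, hc2⟩)]
        norm_num
      · rw [if_neg hc2, if_neg (fun h => hc2 (h2.mp h).2), mul_zero]
    · rw [if_neg hc1, if_neg (fun h => hc1 (h2.mp h).1), zero_mul]

end Pool.Agent.H25A
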