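import Pool.Agent.Lib.H25A.Defs

/-! Chunk G2 (M). -/

namespace Pool.Agent.H25A

open Matrix
open scoped ComplexOrder

theorem g2_bool (b0 b1 b2 b3 : Bool)
    (h : (cond b0 (1 : ℤ) (-1)) + (cond b1 1 (-1)) + (cond b2 1 (-1)) + (cond b3 1 (-1)) = 0) :
    ∃ π : Equiv.Perm (Fin 4), ∀ i, (![b0, b1, b2, b3] : Fin 4 → Bool) (π i) =
      (![true, true, false, false] : Fin 4 → Bool) i := by
  cases b0 <;> cases b1 <;> cases b2 <;> cases b3
  · exact absurd h (by decide)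
  · exact absurd h (by decide)
  · exact absurd h (by decide)
  · exact ⟨Equiv.swap 0 2 * Equiv.swap 1 3, by decide⟩
  · exact absurd h (by decide)
  · exact ⟨Equiv.swap 0 3, by decide⟩
  · exact ⟨Equiv.swap 0 2, by decide⟩
  · exact absurd h (by decide)
  · exact absurd h (by decide)
  · exact ⟨Equiv.swap 1 3, by decide⟩
  · exact ⟨Equiv.swap 1 2, by decide⟩
  · exact absurd h (by decide)
  · exact ⟨1, by decide⟩
  · exact absurd h (by decide)
  · exact absurd h (by decide)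
  · exact absurd h (by decide)

theorem g2_perm (d : Fin 4 → ℝ) (h1 : ∀ i, d i * d i = 1) (h2 : ∑ i, d i = 0) :
    ∃ π : Equiv.Perm (Fin 4), ∀ i, d (π i) = dD i := by
  have h3 : ∀ i, ∃ b : Bool, d i = ((cond b (1 : ℤ) (-1) : ℤ) : ℝ) := by
    intro i
    rcases mul_self_eq_one_iff.1 (h1 i) with h | h
    · exact ⟨true, by rw [h]; simp⟩
    · exact ⟨false, by rw [h]; simp⟩
  choose b hb using h3
  rw [Fin.sum_univ_four, hb 0, hb 1, hb 2, hb 3] at h2
  obtain ⟨π, hπ⟩ := g2_bool (b 0) (b 1) (b 2) (b 3) (by exact_mod_cast h2)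
  refine ⟨π, fun i => ?_⟩
  have h4 : ∀ j, (![b 0, b 1, b 2, b 3] : Fin 4 → Bool) j = b j := by
    intro j; fin_cases j <;> rfl
  have h5 : b (π i) = (![true, true, false, false] : Fin 4 → Bool) i := by rw [← h4]; exact hπ i
  rw [hb, h5]
  unfold dD
  fin_cases i <;> simp

/-- A Hermitian `G ∈ M_4` with `G^2 = 1`, `tr G = 0` is `U^* diag(1,1,-1,-1) U`, `U` unitary.
PROOF. Spectral theorem (`Matrix.IsHermitian.spectral_theorem`): `G = V diag(d) V^*`, `d_i` real;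
`G^2 = 1` gives `d_i^2 = 1`, `tr G = 0` gives `∑ d_i = 0`; so two of the `d_i` are `1` and two are
`-1`: there is a permutation `π` of `Fin 4` with `d_(π i) = dD i` (finitely many cases), take
`U i j = conj (V j (π i))`. -/
theorem diag_of_sq {G : Matrix (Fin 4) (Fin 4) ℂ} (h1 : G.IsHermitian) (h2 : G * G = 1)
    (h3 : G.trace = 0) :
    ∃ U : Matrix (Fin 4) (Fin 4) ℂ, U * Uᴴ = 1 ∧ Uᴴ * U = 1 ∧
      G = Uᴴ * (Matrix.diagonal fun i => ((dD i : ℝ) : ℂ)) * U := by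
  obtain ⟨V, hV⟩ : ∃ V : Matrix (Fin 4) (Fin 4) ℂ, V = (h1.eigenvectorUnitary : Matrix (Fin 4) (Fin 4) ℂ) :=
    ⟨_, rfl⟩
  have hVV : Vᴴ * V = 1 := by
    rw [hV]; exact Unitary.coe_star_mul_self h1.eigenvectorUnitary
  have hVV' : V * Vᴴ = 1 := by
    rw [hV]; exact Unitary.coe_mul_star_self h1.eigenvectorUnitary
  have hsp : G = V * Matrix.diagonal (fun i => ((h1.eigenvalues i : ℝ) : ℂ)) * Vᴴ := by
    have h4 := h1.spectral_theorem
    rw [Unitary.conjStarAlgAut_apply] at h4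
    rw [hV]
    exact h4
  obtain ⟨D, hD⟩ : ∃ D : Matrix (Fin 4) (Fin 4) ℂ, D = Matrix.diagonal (fun i => ((h1.eigenvalues i : ℝ) : ℂ)) :=
    ⟨_, rfl⟩
  rw [← hD] at hsp
  have hDD : D * D = 1 := by
    calc D * D = (Vᴴ * V) * D * (Vᴴ * V) * D * (Vᴴ * V) := by rw [hVV]; simp
      _ = Vᴴ * ((V * D * Vᴴ) * (V * D * Vᴴ)) * V := by simp only [Matrix.mul_assoc]
      _ = 1 := by rw [← hsp, h2, Matrix.mul_one, hVV]
  have hd : ∀ i, h1.eigenvalues i * h1.eigenvalues i = 1 := by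
    intro i
    have h5 := congrFun (congrFun hDD i) i
    rw [hD, Matrix.diagonal_mul_diagonal, Matrix.diagonal_apply_eq, Matrix.one_apply_eq] at h5
    exact_mod_cast h5
  have hs : ∑ i, h1.eigenvalues i = 0 := by
    have h6 := h1.trace_eq_sum_eigenvalues
    rw [h3] at h6
    have h7 : ((∑ i, h1.eigenvalues i : ℝ) : ℂ) = 0 := by
      rw [Complex.ofReal_sum]; exact h6.symm
    exact_mod_cast h7
  obtain ⟨π, hπ⟩ := g2_perm _ hd hs
  have e1 : (V.submatrix id π)ᴴ = Vᴴ.submatrix π id := Matrix.conjTranspose_submatrix _ _ _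
  have e2 : (Vᴴ.submatrix π id) * (V.submatrix id π) = 1 := by
    rw [← Matrix.submatrix_mul _ _ _ _ _ Function.bijective_id, hVV, Matrix.submatrix_one_equiv]
  have e3 : (V.submatrix id π) * (Vᴴ.submatrix π id) = 1 := by
    rw [Matrix.submatrix_mul_equiv, hVV', Matrix.submatrix_id_id]
  refine ⟨(V.submatrix id π)ᴴ, ?_, ?_, ?_⟩
  · rw [Matrix.conjTranspose_conjTranspose, e1, e2]
  · rw [Matrix.conjTranspose_conjTranspose, e1, e3]
  · rw [Matrix.conjTranspose_conjTranspose, e1]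
    have e4 : (Matrix.diagonal fun i => ((dD i : ℝ) : ℂ)) = D.submatrix π π := by
      rw [hD, Matrix.submatrix_diagonal_equiv]
      exact congrArg Matrix.diagonal (funext fun i => by simp [hπ i])
    rw [e4, Matrix.submatrix_mul_equiv, Matrix.submatrix_mul_equiv, Matrix.submatrix_id_id, ← hsp]

end Pool.Agent.H25A
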