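import Pool.Agent.Lib.H25A.Defs

/-! Chunk G3 (S/M). -/

namespace Pool.Agent.H25A

open Matrix
open scoped ComplexOrder

variable {ι : Type*} [Fintype ι] [DecidableEq ι]

theorem g3_entry {U : Matrix (Fin 4) (Fin 4) ℂ} (hU : U * Uᴴ = 1) (i i' : Fin 4) :
    ∑ j, U i j * star (U i' j) = if i = i' then 1 else 0 := by
  have h := congrFun (congrFun hU i) i'
  rw [Matrix.mul_apply, Matrix.one_apply] at h
  exact h

theorem g3_norm {U : Matrix (Fin 4) (Fin 4) ℂ} (hU : U * Uᴴ = 1) (x : Fin 4 → ℂ) :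
    ((∑ j, ‖∑ i, x i * U i j‖ ^ 2 : ℝ) : ℂ) = ((∑ i, ‖x i‖ ^ 2 : ℝ) : ℂ) := by
  have h1 : ∀ z : ℂ, ((‖z‖ ^ 2 : ℝ) : ℂ) = z * star z := by
    intro z
    rw [Complex.star_def, Complex.mul_conj, Complex.normSq_eq_norm_sq]
  rw [Complex.ofReal_sum, Complex.ofReal_sum]
  simp only [h1]
  calc ∑ j, (∑ i, x i * U i j) * star (∑ i, x i * U i j)
      = ∑ j, ∑ i, ∑ i', (x i * star (x i')) * (U i j * star (U i' j)) := by
        refine Finset.sum_congr rfl fun j _ => ?_
        rw [star_sum, Finset.sum_mul_sum]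
        refine Finset.sum_congr rfl fun i _ => Finset.sum_congr rfl fun i' _ => ?_
        rw [star_mul']
        ring
    _ = ∑ i, ∑ i', (x i * star (x i')) * ∑ j, (U i j * star (U i' j)) := by
        rw [Finset.sum_comm]
        refine Finset.sum_congr rfl fun i _ => ?_
        rw [Finset.sum_comm]
        refine Finset.sum_congr rfl fun i' _ => ?_
        rw [Finset.mul_sum]
    _ = ∑ i, x i * star (x i) := by
        refine Finset.sum_congr rfl fun i _ => ?_
        simp only [g3_entry hU]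
        simp

/-- A rotated contraction is a contraction.
PROOF. `∑_i x_i A_i = ∑_j y_j C_j` with `y_j = ∑_i x_i U_ij`, and `∑ |y_j|^2 = ∑ |x_i|^2` because
`U U^* = 1`. -/
theorem con_rot {U : Matrix (Fin 4) (Fin 4) ℂ} (hU : U * Uᴴ = 1) {C : Fin 4 → Matrix ι ι ℂ}
    (hC : Con C) : Con (rot U C) := by
  intro x
  have h := hC fun j => ∑ i, x i * U i j
  rw [g3_norm hU x] at h
  have e : ∑ i, x i • rot U C i = ∑ j, (∑ i, x i * U i j) • C j := by
    unfold rot
    simp only [Finset.smul_sum, smul_smul, Finset.sum_smul]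
    rw [Finset.sum_comm]
  rw [e]
  exact h

/-- `R^A_ij = ∑_{kl} U_ik conj(U_jl) R^C_kl` for `A = rot U C`, `U U^* = 1`. -/
theorem rR_rot {U : Matrix (Fin 4) (Fin 4) ℂ} (hU : U * Uᴴ = 1) (C : Fin 4 → Matrix ι ι ℂ)
    (i j : Fin 4) : rR (rot U C) i j = ∑ k, ∑ l, (U i k * star (U j l)) • rR C k l := by
  have h1 : (rot U C j)ᴴ * rot U C i = ∑ k, ∑ l, (U i k * star (U j l)) • ((C l)ᴴ * C k) := by
    unfold rot
    rw [Matrix.conjTranspose_sum, Matrix.sum_mul]
    simp only [Matrix.mul_sum, Matrix.conjTranspose_smul, Matrix.smul_mul, Matrix.mul_smul, smul_smul]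
    rw [Finset.sum_comm]
  have h2 : ∑ k, ∑ l, (U i k * star (U j l)) • (if k = l then (1 : Matrix ι ι ℂ) else 0) =
      if i = j then 1 else 0 := by
    have h3 : ∀ k, ∑ l, (U i k * star (U j l)) • (if k = l then (1 : Matrix ι ι ℂ) else 0) =
        (U i k * star (U j k)) • (1 : Matrix ι ι ℂ) := by
      intro k
      rw [Finset.sum_eq_single k]
      · rw [if_pos rfl]
      · intro l _ hl
        rw [if_neg (Ne.symm hl), smul_zero]
      · intro hk
        exact absurd (Finset.mem_univ k) hk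
    simp only [h3]
    rw [← Finset.sum_smul, g3_entry hU]
    split_ifs
    · rw [one_smul]
    · rw [zero_smul]
  unfold rR
  rw [h1]
  simp only [smul_sub, Finset.sum_sub_distrib]
  rw [h2]

end Pool.Agent.H25A
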