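import Pool.Agent.Lib.H25A.Defs
import Pool.Agent.Lib.H25A.G3
import Pool.Agent.Lib.H25A.B1b

/-! Chunk G4 (M): the terms of F4 for a rotated family. -/

namespace Pool.Agent.H25A

open Matrix
open scoped ComplexOrder

variable {ι : Type*} [Fintype ι] [DecidableEq ι]

theorem g4_comm {α : Type*} [AddCommMonoid α] (f : Fin 4 → Fin 4 → Fin 4 → α) :
    ∑ i, ∑ k, ∑ l, f i k l = ∑ k, ∑ l, ∑ i, f i k l := by
  rw [Finset.sum_comm]
  exact Finset.sum_congr rfl fun k _ => Finset.sum_comm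

/-- `∑ R^A_ii = ∑ R^C_kk`.  PROOF. G3 and `∑_i U_ik conj(U_il) = (U^* U)_{lk} = δ_kl`. -/
theorem rSum_rot {U : Matrix (Fin 4) (Fin 4) ℂ} (hU : U * Uᴴ = 1) (hU' : Uᴴ * U = 1)
    (C : Fin 4 → Matrix ι ι ℂ) : rSum (rot U C) = rSum C := by
  unfold rSum
  simp only [rR_rot hU C]
  rw [g4_comm]
  refine Finset.sum_congr rfl fun k _ => ?_
  have h1 : ∀ l, ∑ i, (U i k * star (U i l)) • rR C k l = if l = k then rR C k l else 0 := by
    intro l
    rw [← Finset.sum_smul]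
    have h := congrFun (congrFun hU' l) k
    rw [Matrix.mul_apply, Matrix.one_apply] at h
    have h2 : ∑ i, U i k * star (U i l) = if l = k then 1 else 0 := by
      rw [← h]
      exact Finset.sum_congr rfl fun i _ => by rw [Matrix.conjTranspose_apply, mul_comm]
    rw [h2]
    split_ifs
    · rw [one_smul]
    · rw [zero_smul]
  simp only [h1]
  rw [Finset.sum_ite_eq' Finset.univ k]
  rw [if_pos (Finset.mem_univ k)]

/-- `∑ D_i R^A_ii = ∑_{kl} G_{lk} R^C_kl`, `G = U^* D U`. -/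
theorem dSum_rot {U : Matrix (Fin 4) (Fin 4) ℂ} (hU : U * Uᴴ = 1) (C : Fin 4 → Matrix ι ι ℂ)
    {G : Matrix (Fin 4) (Fin 4) ℂ}
    (hG : G = Uᴴ * (Matrix.diagonal fun i => ((dD i : ℝ) : ℂ)) * U) :
    ∑ i, ((dD i : ℝ) : ℂ) • rR (rot U C) i i = ∑ k, ∑ l, G l k • rR C k l := by
  simp only [rR_rot hU C, Finset.smul_sum, smul_smul]
  rw [g4_comm]
  refine Finset.sum_congr rfl fun k _ => Finset.sum_congr rfl fun l _ => ?_
  rw [← Finset.sum_smul]
  congr 1
  rw [hG, Matrix.mul_assoc, Matrix.mul_apply]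
  refine Finset.sum_congr rfl fun i _ => ?_
  rw [Matrix.conjTranspose_apply, Matrix.diagonal_mul]
  ring

end Pool.Agent.H25A
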