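import Pool.Agent.Lib.H25A.Defs
import Pool.Agent.Lib.H25A.G4

/-! Chunk G4b (M): the quadratic terms of F4 for a rotated family. -/

namespace Pool.Agent.H25A

open Matrix
open scoped ComplexOrder

variable {ι : Type*} [Fintype ι] [DecidableEq ι]

theorem g4b_swap3 (g : Fin 4 → Fin 4 → Fin 4 → ℂ) : ∑ i, ∑ j, ∑ k, g i j k = ∑ k, ∑ i, ∑ j, g i j k := by
  have h1 : ∀ i : Fin 4, ∑ j, ∑ k, g i j k = ∑ k, ∑ j, g i j k := fun i => Finset.sum_comm
  rw [Finset.sum_congr rfl fun i _ => h1 i, Finset.sum_comm]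

theorem g4b_swap6 (f : Fin 4 → Fin 4 → Fin 4 → Fin 4 → Fin 4 → Fin 4 → ℂ) :
    ∑ i, ∑ j, ∑ k, ∑ l, ∑ p, ∑ q, f i j k l p q = ∑ k, ∑ l, ∑ p, ∑ q, ∑ i, ∑ j, f i j k l p q := by
  rw [g4b_swap3]
  refine Finset.sum_congr rfl fun k _ => ?_
  rw [g4b_swap3]
  refine Finset.sum_congr rfl fun l _ => ?_
  rw [g4b_swap3]
  refine Finset.sum_congr rfl fun p _ => ?_
  rw [g4b_swap3]

theorem g4b_tr (C : Fin 4 → Matrix ι ι ℂ) (X : Matrix ι ι ℂ) (a b : Fin 4 → Fin 4 → ℂ) :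
    ((∑ k, ∑ l, a k l • rR C k l) * X * (∑ p, ∑ q, b p q • rR C p q) * X).trace =
      ∑ k, ∑ l, ∑ p, ∑ q, a k l * b p q * tt C X k l p q := by
  rw [Finset.sum_mul, Finset.sum_mul, Finset.sum_mul, Matrix.trace_sum]
  refine Finset.sum_congr rfl fun k _ => ?_
  rw [Finset.sum_mul, Finset.sum_mul, Finset.sum_mul, Matrix.trace_sum]
  refine Finset.sum_congr rfl fun l _ => ?_
  rw [Finset.mul_sum, Finset.sum_mul, Matrix.trace_sum]
  refine Finset.sum_congr rfl fun p _ => ?_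
  rw [Finset.mul_sum, Finset.sum_mul, Matrix.trace_sum]
  refine Finset.sum_congr rfl fun q _ => ?_
  rw [Matrix.smul_mul, Matrix.mul_smul, Matrix.smul_mul, Matrix.smul_mul, Matrix.smul_mul, Matrix.trace_smul,
    Matrix.trace_smul, smul_eq_mul, smul_eq_mul]
  unfold tt
  ring

/-- The trace of the terms of a rotated family. -/
theorem g4b_rot {U : Matrix (Fin 4) (Fin 4) ℂ} (hU : U * Uᴴ = 1) (C : Fin 4 → Matrix ι ι ℂ) (X : Matrix ι ι ℂ)
    (w : Fin 4 → ℂ) :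
    ∑ i, ∑ j, w i * w j * (rR (rot U C) i j * X * rR (rot U C) j i * X).trace =
      ∑ k, ∑ l, ∑ p, ∑ q, (Uᴴ * Matrix.diagonal w * U) q k * (Uᴴ * Matrix.diagonal w * U) l p * tt C X k l p q := by
  have h1 : ∀ i j : Fin 4, w i * w j * (rR (rot U C) i j * X * rR (rot U C) j i * X).trace =
      ∑ k, ∑ l, ∑ p, ∑ q, w i * w j * ((U i k * star (U j l)) * (U j p * star (U i q)) * tt C X k l p q) := by
    intro i j
    rw [rR_rot hU C i j, rR_rot hU C j i, g4b_tr, Finset.mul_sum]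
    refine Finset.sum_congr rfl fun k _ => ?_
    rw [Finset.mul_sum]
    refine Finset.sum_congr rfl fun l _ => ?_
    rw [Finset.mul_sum]
    refine Finset.sum_congr rfl fun p _ => ?_
    rw [Finset.mul_sum]
  rw [Finset.sum_congr rfl fun i _ => Finset.sum_congr rfl fun j _ => h1 i j, g4b_swap6]
  refine Finset.sum_congr rfl fun k _ => Finset.sum_congr rfl fun l _ => Finset.sum_congr rfl fun p _ =>
    Finset.sum_congr rfl fun q _ => ?_
  have h2 : ∀ x y : Fin 4, (Uᴴ * Matrix.diagonal w * U) x y = ∑ i, star (U i x) * w i * U i y := by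
    intro x y
    rw [Matrix.mul_apply]
    refine Finset.sum_congr rfl fun i _ => ?_
    rw [Matrix.mul_diagonal, Matrix.conjTranspose_apply]
  rw [h2, h2, Finset.sum_mul_sum, Finset.sum_mul]
  refine Finset.sum_congr rfl fun i _ => ?_
  rw [Finset.sum_mul]
  refine Finset.sum_congr rfl fun j _ => ?_
  ring

/-- `∑_ij tr (R^A_ij X R^A_ji X) = ∑_kl tr (R^C_kl X R^C_lk X)`.
PROOF. Insert G3 (`rR_rot`): the sum over `i, j` of
`U_ik conj(U_jl) U_jp conj(U_iq)` is `δ_kq δ_lp`. -/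
theorem sT_rot {U : Matrix (Fin 4) (Fin 4) ℂ} (hU : U * Uᴴ = 1) (hU' : Uᴴ * U = 1)
    (C : Fin 4 → Matrix ι ι ℂ) (X : Matrix ι ι ℂ) : sT (rot U C) X = sT C X := by
  have h1 := g4b_rot hU C X (fun _ => 1)
  have h2 : Uᴴ * Matrix.diagonal (fun _ => (1 : ℂ)) * U = 1 := by
    rw [Matrix.diagonal_one, Matrix.mul_one, hU']
  rw [h2] at h1
  have h3 : ∑ k, ∑ l, ∑ p, ∑ q, (1 : Matrix (Fin 4) (Fin 4) ℂ) q k * (1 : Matrix (Fin 4) (Fin 4) ℂ) l p *
      tt C X k l p q = ∑ k, ∑ l, tt C X k l l k := by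
    refine Finset.sum_congr rfl fun k _ => Finset.sum_congr rfl fun l _ => ?_
    rw [Finset.sum_eq_single l]
    · rw [Finset.sum_eq_single k]
      · rw [Matrix.one_apply_eq, Matrix.one_apply_eq, one_mul, one_mul]
      · intro q _ hq
        rw [Matrix.one_apply_ne hq, zero_mul, zero_mul]
      · intro h
        exact absurd (Finset.mem_univ k) h
    · intro p _ hp
      refine Finset.sum_eq_zero fun q _ => ?_
      rw [Matrix.one_apply_ne (Ne.symm hp), mul_zero, zero_mul]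
    · intro h
      exact absurd (Finset.mem_univ l) h
  rw [h3] at h1
  have h4 := congrArg Complex.re h1
  simp only [Complex.re_sum, one_mul] at h4
  exact h4

/-- `∑_ij D_i D_j tr (R^A_ij X R^A_ji X) = k_G`.
PROOF. `∑_i D_i U_ik conj(U_iq) = G_{qk}` and `∑_j D_j U_jp conj(U_jl) = G_{lp}`. -/
theorem kG_rot {U : Matrix (Fin 4) (Fin 4) ℂ} (hU : U * Uᴴ = 1) (C : Fin 4 → Matrix ι ι ℂ)
    (X : Matrix ι ι ℂ) {G : Matrix (Fin 4) (Fin 4) ℂ}
    (hG : G = Uᴴ * (Matrix.diagonal fun i => ((dD i : ℝ) : ℂ)) * U) :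
    ∑ i, ∑ j, dD i * dD j * rtr (rR (rot U C) i j * X * rR (rot U C) j i * X) = kG C X G := by
  have h1 := g4b_rot hU C X (fun i => ((dD i : ℝ) : ℂ))
  rw [← hG] at h1
  unfold kG
  rw [← h1, Complex.re_sum]
  refine Finset.sum_congr rfl fun i _ => ?_
  rw [Complex.re_sum]
  refine Finset.sum_congr rfl fun j _ => ?_
  rw [← Complex.ofReal_mul, Complex.re_ofReal_mul]
  rfl

/-- `tr (R(G) X R(G) X) = b_G` with `R(G) = ∑_{kl} G_{lk} R_kl`. -/
theorem bG_eq (C : Fin 4 → Matrix ι ι ℂ) (X : Matrix ι ι ℂ) (G : Matrix (Fin 4) (Fin 4) ℂ) :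
    rtr ((∑ k, ∑ l, G l k • rR C k l) * X * (∑ k, ∑ l, G l k • rR C k l) * X) = bG C X G := by
  unfold rtr bG
  rw [g4b_tr C X (fun k l => G l k) (fun k l => G l k)]

end Pool.Agent.H25A
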