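import Pool.Agent.Lib.H25A.Defs
import Pool.Agent.Lib.H25A.F4
import Pool.Agent.Lib.H25A.G2
import Pool.Agent.Lib.H25A.G4b

/-! Chunk G5 (S/M). -/

namespace Pool.Agent.H25A

open Matrix
open scoped ComplexOrder

variable {ι : Type*} [Fintype ι] [DecidableEq ι]

/-- The inequality F4 for every reflection `G`.
PROOF. G2 gives `U`; F4 for `A = rot U C` (`Con` by G3); G4, G4b. -/
theorem frame_G {C : Fin 4 → Matrix ι ι ℂ} (hC : Con C) {X : Matrix ι ι ℂ} (hX : X.PosDef)
    {G : Matrix (Fin 4) (Fin 4) ℂ} (h1 : G.IsHermitian) (h2 : G * G = 1) (h3 : G.trace = 0) :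
    (5 / 12) * (sT C X + kG C X G) + (1 / 6) * (rtr (rSum C * X * rSum C * X) + bG C X G)
      ≤ rtr (X * X) + rtr (rSum C * (X * X))
        + (1 / 4) * (rtr (rSum C * X * rSum C * X) - bG C X G) := by
  obtain ⟨U, hU, hU', hG⟩ := diag_of_sq h1 h2 h3
  have h := frame_signed (con_rot hU hC) hX
  rw [sT_rot hU hU' C X, kG_rot hU C X hG, rSum_rot hU hU' C, dSum_rot hU C hG, bG_eq C X G] at h
  exact h

end Pool.Agent.H25A
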