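import Pool.Agent.Lib.H25A.Defs
import Pool.Agent.Lib.H25A.G1
import Pool.Agent.Lib.H25A.B1b

/-! Chunk G6 (M): the sums over the design. -/

namespace Pool.Agent.H25A

open Matrix
open scoped ComplexOrder

variable {ι : Type*} [Fintype ι] [DecidableEq ι]

theorem g6_swap (f : Fin 4 → Fin 4 → Fin 4 → Fin 4 → Fin 4 → Fin 4 → ℂ) :
    ∑ a, ∑ b, (∑ k, ∑ l, ∑ p, ∑ q, f a b k l p q).re
      = (∑ k, ∑ l, ∑ p, ∑ q, ∑ a, ∑ b, f a b k l p q).re := by
  simp only [← Complex.re_sum]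
  congr 1
  calc ∑ a, ∑ b, ∑ k, ∑ l, ∑ p, ∑ q, f a b k l p q
      = ∑ x : Fin 4 × Fin 4, ∑ y : Fin 4 × Fin 4 × Fin 4 × Fin 4,
          f x.1 x.2 y.1 y.2.1 y.2.2.1 y.2.2.2 := by
        simp only [Fintype.sum_prod_type]
    _ = ∑ y : Fin 4 × Fin 4 × Fin 4 × Fin 4, ∑ x : Fin 4 × Fin 4,
          f x.1 x.2 y.1 y.2.1 y.2.2.1 y.2.2.2 := Finset.sum_comm
    _ = ∑ k, ∑ l, ∑ p, ∑ q, ∑ a, ∑ b, f a b k l p q := by
        simp only [Fintype.sum_prod_type]

theorem g6_rr (C : Fin 4 → Matrix ι ι ℂ) (X : Matrix ι ι ℂ) :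
    (∑ k, ∑ p, tt C X k k p p).re = rtr (rSum C * X * rSum C * X) := by
  unfold rtr rSum tt
  congr 1
  simp only [Finset.sum_mul, Finset.mul_sum, Matrix.trace_sum]
  exact Finset.sum_comm

theorem g6_s (C : Fin 4 → Matrix ι ι ℂ) (X : Matrix ι ι ℂ) :
    (∑ k, ∑ l, tt C X k l l k).re = sT C X := by
  unfold sT rtr tt
  rw [Complex.re_sum]
  refine Finset.sum_congr rfl fun k _ => ?_
  rw [Complex.re_sum]

/-- `∑_{ab} b_{G_ab} = 4 S`, the sum over all 16 matrices.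
PROOF. `∑_{ab} G_{lk} G_{qp} = 4 δ_lp δ_kq`, so the sum is `4 ∑_{kl} t_{kl,lk} = 4 S`. -/
theorem sum_bG {G : Fin 4 → Fin 4 → Matrix (Fin 4) (Fin 4) ℂ}
    (hG : ∀ i j k l, ∑ a, ∑ b, G a b i j * G a b k l = if i = l ∧ j = k then 4 else 0)
    (C : Fin 4 → Matrix ι ι ℂ) (X : Matrix ι ι ℂ) :
    ∑ a, ∑ b, bG C X (G a b) = 4 * sT C X := by
  unfold bG
  rw [g6_swap (fun a b k l p q => G a b l k * G a b q p * tt C X k l p q)]
  have h1 : ∀ k l p q, ∑ a, ∑ b, G a b l k * G a b q p * tt C X k l p q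
      = (if l = p ∧ k = q then 4 else 0) * tt C X k l p q := by
    intro k l p q
    rw [← hG l k q p, Finset.sum_mul]
    refine Finset.sum_congr rfl fun a _ => ?_
    rw [Finset.sum_mul]
  simp only [h1]
  have h2 : ∑ k, ∑ l, ∑ p, ∑ q, (if l = p ∧ k = q then (4 : ℂ) else 0) * tt C X k l p q
      = 4 * ∑ k, ∑ l, tt C X k l l k := by
    rw [Finset.mul_sum]
    refine Finset.sum_congr rfl fun k _ => ?_
    rw [Finset.mul_sum]
    refine Finset.sum_congr rfl fun l _ => ?_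
    rw [Finset.sum_eq_single l, Finset.sum_eq_single k]
    · simp
    · intro q _ hq
      rw [if_neg (fun h => hq h.2.symm), zero_mul]
    · simp
    · intro p _ hp
      refine Finset.sum_eq_zero fun q _ => ?_
      rw [if_neg (fun h => hp h.1.symm), zero_mul]
    · simp
  rw [h2, show (4 : ℂ) = ((4 : ℝ) : ℂ) by norm_num, Complex.re_ofReal_mul, g6_s]

/-- `∑_{ab} k_{G_ab} = 4 tr (r X r X)`.
PROOF. `∑_{ab} G_{qk} G_{lp} = 4 δ_qp δ_kl`, so the sum is `4 ∑_{k,p} t_{kk,pp}`. -/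
theorem sum_kG {G : Fin 4 → Fin 4 → Matrix (Fin 4) (Fin 4) ℂ}
    (hG : ∀ i j k l, ∑ a, ∑ b, G a b i j * G a b k l = if i = l ∧ j = k then 4 else 0)
    (C : Fin 4 → Matrix ι ι ℂ) (X : Matrix ι ι ℂ) :
    ∑ a, ∑ b, kG C X (G a b) = 4 * rtr (rSum C * X * rSum C * X) := by
  unfold kG
  rw [g6_swap (fun a b k l p q => G a b q k * G a b l p * tt C X k l p q)]
  have h1 : ∀ k l p q, ∑ a, ∑ b, G a b q k * G a b l p * tt C X k l p q
      = (if q = p ∧ k = l then 4 else 0) * tt C X k l p q := by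
    intro k l p q
    rw [← hG q k l p, Finset.sum_mul]
    refine Finset.sum_congr rfl fun a _ => ?_
    rw [Finset.sum_mul]
  simp only [h1]
  have h2 : ∑ k, ∑ l, ∑ p, ∑ q, (if q = p ∧ k = l then (4 : ℂ) else 0) * tt C X k l p q
      = 4 * ∑ k, ∑ p, tt C X k k p p := by
    rw [Finset.mul_sum]
    refine Finset.sum_congr rfl fun k _ => ?_
    rw [Finset.sum_eq_single k]
    · rw [Finset.mul_sum]
      refine Finset.sum_congr rfl fun p _ => ?_
      rw [Finset.sum_eq_single p]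
      · simp
      · intro q _ hq
        rw [if_neg (fun h => hq h.1), zero_mul]
      · simp
    · intro l _ hl
      refine Finset.sum_eq_zero fun p _ => Finset.sum_eq_zero fun q _ => ?_
      rw [if_neg (fun h => hl h.2.symm), zero_mul]
    · simp
  rw [h2, show (4 : ℂ) = ((4 : ℝ) : ℂ) by norm_num, Complex.re_ofReal_mul, g6_rr]

/-- `b_1 = tr (r X r X)`. -/
theorem bG_one (C : Fin 4 → Matrix ι ι ℂ) (X : Matrix ι ι ℂ) :
    bG C X 1 = rtr (rSum C * X * rSum C * X) := by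
  unfold bG
  rw [← g6_rr]
  congr 1
  refine Finset.sum_congr rfl fun k _ => ?_
  rw [Finset.sum_eq_single k]
  · refine Finset.sum_congr rfl fun p _ => ?_
    rw [Finset.sum_eq_single p]
    · simp
    · intro q _ hq
      rw [Matrix.one_apply_ne hq]
      ring
    · simp
  · intro l _ hl
    refine Finset.sum_eq_zero fun p _ => Finset.sum_eq_zero fun q _ => ?_
    rw [Matrix.one_apply_ne hl]
    ring
  · simp

/-- `k_1 = S`  (`G_{qk} G_{lp} = δ_qk δ_lp`). -/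
theorem kG_one (C : Fin 4 → Matrix ι ι ℂ) (X : Matrix ι ι ℂ) : kG C X 1 = sT C X := by
  unfold kG
  rw [← g6_s]
  congr 1
  refine Finset.sum_congr rfl fun k _ => Finset.sum_congr rfl fun l _ => ?_
  rw [Finset.sum_eq_single l, Finset.sum_eq_single k]
  · simp
  · intro q _ hq
    rw [Matrix.one_apply_ne hq]
    ring
  · simp
  · intro p _ hp
    refine Finset.sum_eq_zero fun q _ => ?_
    rw [Matrix.one_apply_ne (Ne.symm hp)]
    ring
  · simp

end Pool.Agent.H25A
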