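import Pool.Agent.Lib.H25A.Defs
import Pool.Agent.Lib.H25A.G5
import Pool.Agent.Lib.H25A.G6

/-! Chunk G7 (S/M). -/

namespace Pool.Agent.H25A

open Matrix
open scoped ComplexOrder

variable {ι : Type*} [Fintype ι] [DecidableEq ι]

/-- `S ≤ 2 tr X^2 + 2 tr (r X^2)`.
PROOF. Sum G5 over the 15 matrices `G_ab`, `(a,b) ≠ (0,0)`, of G1; with `D = tr (r X r X)` and G6
`∑' b = 4 S - D`, `∑' k = 4 D - S` (sums over the 15, i.e. all 16 minus `G_00 = 1`):
`(5/12)(15 S + 4 D - S) + (1/6)(15 D + 4 S - D)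
≤ 15 (tr X^2 + tr (r X^2)) + (1/4)(15 D - 4 S + D)`, i.e. `7.5 S ≤ 15 (tr X^2 + tr (r X^2))`. -/
theorem sT_le {C : Fin 4 → Matrix ι ι ℂ} (hC : Con C) {X : Matrix ι ι ℂ} (hX : X.PosDef) :
    sT C X ≤ 2 * rtr (X * X) + 2 * rtr (rSum C * (X * X)) := by
  obtain ⟨G, hH, hsq, h00, htr, hsum⟩ := pauli
  have hb := sum_bG hsum C X
  have hk := sum_kG hsum C X
  have hb1 := bG_one C X
  have hk1 := kG_one C X
  have h := fun a b hab => frame_G hC hX (hH a b) (hsq a b) (htr a b hab)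
  simp only [Fin.sum_univ_four, h00] at hb hk
  have e01 := h 0 1 (by decide)
  have e02 := h 0 2 (by decide)
  have e03 := h 0 3 (by decide)
  have e10 := h 1 0 (by decide)
  have e11 := h 1 1 (by decide)
  have e12 := h 1 2 (by decide)
  have e13 := h 1 3 (by decide)
  have e20 := h 2 0 (by decide)
  have e21 := h 2 1 (by decide)
  have e22 := h 2 2 (by decide)
  have e23 := h 2 3 (by decide)
  have e30 := h 3 0 (by decide)
  have e31 := h 3 1 (by decide)
  have e32 := h 3 2 (by decide)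
  have e33 := h 3 3 (by decide)
  linarith

end Pool.Agent.H25A
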