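import Pool.Agent.Lib.H25A.Defs
import Pool.Agent.Lib.H25A.G7
import Pool.Agent.Lib.H25A.B1b

/-! Chunk G8 (M). -/

namespace Pool.Agent.H25A

open Matrix
open scoped ComplexOrder

variable {ι : Type*} [Fintype ι] [DecidableEq ι]

theorem g8_term (C : Fin 4 → Matrix ι ι ℂ) (X : Matrix ι ι ℂ) (k l : Fin 4) :
    rtr (rR C k l * X * rR C l k * X) =
      (if k = l then rtr (X * X) - 2 * rtr ((C k)ᴴ * C k * (X * X)) else 0) +
        rtr ((C k * X * (C k)ᴴ) * (C l * X * (C l)ᴴ)) := by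
  have hc : rtr (((C l)ᴴ * C k) * X * ((C k)ᴴ * C l) * X) =
      rtr ((C k * X * (C k)ᴴ) * (C l * X * (C l)ᴴ)) := by
    have e1 : ((C l)ᴴ * C k) * X * ((C k)ᴴ * C l) * X =
        (C l)ᴴ * (C k * X * (C k)ᴴ * (C l * X)) := by
      noncomm_ring
    rw [e1, rtr_mul_comm]
    congr 1
    noncomm_ring
  by_cases h : k = l
  · subst h
    unfold rR
    rw [if_pos rfl, if_pos rfl, ← hc]
    have e2 : (1 - (C k)ᴴ * C k) * X * (1 - (C k)ᴴ * C k) * X =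
        X * X - (C k)ᴴ * C k * (X * X) - X * ((C k)ᴴ * C k * X) +
          ((C k)ᴴ * C k) * X * ((C k)ᴴ * C k) * X := by
      noncomm_ring
    have e3 : rtr (X * ((C k)ᴴ * C k * X)) = rtr ((C k)ᴴ * C k * (X * X)) := by
      rw [rtr_mul_comm]
      congr 1
      noncomm_ring
    rw [e2, rtr_add, rtr_sub, rtr_sub, e3]
    ring
  · have h' : ¬ l = k := fun e => h e.symm
    unfold rR
    rw [if_neg h, if_neg h', if_neg h, ← hc, zero_add]
    congr 1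
    noncomm_ring

/-- `tr (Φ(X)^2) = 4 tr X^2 - 2 tr (r X^2) + S`, `Φ(X) = ∑ C_k X C_k^*`.
PROOF. `S = ∑_kl tr ((δ_kl - C_l^* C_k) X (δ_kl - C_k^* C_l) X)
= 4 tr X^2 - 2 ∑_k tr (C_k^* C_k X^2) + ∑_kl tr (C_l^* C_k X C_k^* C_l X)`, the last sum is
`tr (∑_l C_l X C_l^*)(∑_k C_k X C_k^*)` (cyclicity), and `∑_k C_k^* C_k = 4 - r`. -/
theorem phi_sq_eq (C : Fin 4 → Matrix ι ι ℂ) (X : Matrix ι ι ℂ) :
    rtr ((∑ k, C k * X * (C k)ᴴ) * (∑ k, C k * X * (C k)ᴴ))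
      = 4 * rtr (X * X) - 2 * rtr (rSum C * (X * X)) + sT C X := by
  have h1 : sT C X = ∑ k, (rtr (X * X) - 2 * rtr ((C k)ᴴ * C k * (X * X))) +
      rtr ((∑ k, C k * X * (C k)ᴴ) * (∑ k, C k * X * (C k)ᴴ)) := by
    unfold sT
    rw [Finset.sum_mul_sum, rtr_sum, ← Finset.sum_add_distrib]
    refine Finset.sum_congr rfl fun k _ => ?_
    rw [rtr_sum]
    rw [Finset.sum_congr rfl fun l _ => g8_term C X k l, Finset.sum_add_distrib,
      Finset.sum_ite_eq, if_pos (Finset.mem_univ _)]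
  have h2 : rtr (rSum C * (X * X)) = ∑ k, (rtr (X * X) - rtr ((C k)ᴴ * C k * (X * X))) := by
    unfold rSum
    rw [Finset.sum_mul, rtr_sum]
    refine Finset.sum_congr rfl fun k _ => ?_
    unfold rR
    rw [if_pos rfl, sub_mul, one_mul, rtr_sub]
  rw [Finset.sum_sub_distrib] at h1 h2
  rw [← Finset.mul_sum] at h1
  simp only [Finset.sum_const, Finset.card_univ, Fintype.card_fin, nsmul_eq_mul] at h1 h2
  push_cast at h1 h2
  linarith

/-- `tr (Φ(X)^2) ≤ 6 tr X^2` for `X > 0`. -/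
theorem phi_sq_le_posDef {C : Fin 4 → Matrix ι ι ℂ} (hC : Con C) {X : Matrix ι ι ℂ}
    (hX : X.PosDef) :
    rtr ((∑ k, C k * X * (C k)ᴴ) * (∑ k, C k * X * (C k)ᴴ)) ≤ 6 * rtr (X * X) := by
  have h1 := sT_le hC hX
  have h2 := phi_sq_eq C X
  linarith

/-- The same for `X ≥ 0`.
PROOF. `X + ε` is positive definite for `ε > 0` (`Matrix.PosDef.posSemidef_add` and
`Matrix.PosDef.one`); both sides are continuous in `ε`
(polynomials), let `ε → 0+`. -/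
theorem phi_sq_le {C : Fin 4 → Matrix ι ι ℂ} (hC : Con C) {X : Matrix ι ι ℂ}
    (hX : X.PosSemidef) :
    rtr ((∑ k, C k * X * (C k)ᴴ) * (∑ k, C k * X * (C k)ᴴ)) ≤ 6 * rtr (X * X) := by
  have hcont : Continuous (fun e : ℝ => 6 * rtr ((X + (e : ℂ) • 1) * (X + (e : ℂ) • 1)) -
      rtr ((∑ k, C k * (X + (e : ℂ) • 1) * (C k)ᴴ) * (∑ k, C k * (X + (e : ℂ) • 1) * (C k)ᴴ))) := by
    unfold rtr
    fun_prop
  have hlim := (hcont.tendsto 0).mono_left (nhdsWithin_le_nhds (s := Set.Ioi (0 : ℝ)))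
  have hpos : ∀ᶠ e : ℝ in nhdsWithin 0 (Set.Ioi 0),
      0 ≤ 6 * rtr ((X + (e : ℂ) • 1) * (X + (e : ℂ) • 1)) -
      rtr ((∑ k, C k * (X + (e : ℂ) • 1) * (C k)ᴴ) *
        (∑ k, C k * (X + (e : ℂ) • 1) * (C k)ᴴ)) := by
    filter_upwards [self_mem_nhdsWithin] with e he
    have he' : (0 : ℂ) < (e : ℂ) := by exact_mod_cast he
    have hd : (X + (e : ℂ) • (1 : Matrix ι ι ℂ)).PosDef :=
      Matrix.PosDef.posSemidef_add hX (Matrix.PosDef.one.smul he')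
    have := phi_sq_le_posDef hC hd
    linarith
  have hge := ge_of_tendsto hlim hpos
  simp only [Complex.ofReal_zero, zero_smul, add_zero] at hge
  linarith

end Pool.Agent.H25A
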