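import Pool.Agent.Lib.H25A.Defs
import Pool.Agent.Lib.H25A.G8
import Pool.Agent.Lib.H25A.B3
import Pool.Agent.Lib.H25A.B1b

/-! Chunk R1 (M). -/

namespace Pool.Agent.H25A

open Matrix
open scoped ComplexOrder

variable {ι : Type*} [Fintype ι] [DecidableEq ι]

/-- Cauchy-Schwarz: `tr (K H)^2 ≤ tr K^2 tr H^2` for Hermitian `K`, `H`.
PROOF. `0 ≤ tr ((t K - H)^2) = t^2 tr K^2 - 2 t tr (K H) + tr H^2` for all real `t`
(discriminant: `discrim_le_zero`). -/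
theorem rtr_cs {K H : Matrix ι ι ℂ} (hK : K.IsHermitian) (hH : H.IsHermitian) :
    rtr (K * H) ^ 2 ≤ rtr (K * K) * rtr (H * H) := by
  have key : ∀ t : ℝ, 0 ≤ rtr (K * K) * (t * t) + (-(2 * rtr (K * H))) * t + rtr (H * H) := by
    intro t
    have h1 := rtr_conjTranspose_mul_self_nonneg ((t : ℂ) • K - H)
    have e0 : Kᴴ = K := hK
    have e1 : Hᴴ = H := hH
    have e2 : ((t : ℂ) • K - H)ᴴ = (t : ℂ) • K - H := by
      rw [conjTranspose_sub, conjTranspose_smul, e0, e1]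
      simp
    have e3 : ((t : ℂ) • K - H) * ((t : ℂ) • K - H) = ((t * t : ℝ) : ℂ) • (K * K) - (t : ℂ) • (K * H) - (t : ℂ) • (H * K) + H * H := by
      rw [sub_mul, mul_sub, mul_sub, smul_mul_smul_comm, smul_mul_assoc, mul_smul_comm]
      push_cast
      abel
    rw [e2, e3, rtr_add, rtr_sub, rtr_sub, rtr_smul, rtr_smul, rtr_smul, rtr_mul_comm H K] at h1
    linarith
  have h2 := discrim_le_zero key
  unfold discrim at h2
  linarith

theorem r1_pos (C : Fin 4 → Matrix ι ι ℂ) {X : Matrix ι ι ℂ} (hX : X.PosSemidef) : (∑ k, C k * X * (C k)ᴴ).PosSemidef :=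
  Finset.sum_induction _ (fun M : Matrix ι ι ℂ => M.PosSemidef) (fun _ _ h1 h2 => h1.add h2) Matrix.PosSemidef.zero
    fun k _ => hX.mul_mul_conjTranspose_same (C k)

theorem r1_sub (C : Fin 4 → Matrix ι ι ℂ) (A B : Matrix ι ι ℂ) :
    ∑ k, C k * (A - B) * (C k)ᴴ = ∑ k, C k * A * (C k)ᴴ - ∑ k, C k * B * (C k)ᴴ := by
  rw [← Finset.sum_sub_distrib]
  exact Finset.sum_congr rfl fun k _ => by rw [mul_sub, sub_mul]

theorem r1_add (C : Fin 4 → Matrix ι ι ℂ) (A B : Matrix ι ι ℂ) :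
    ∑ k, C k * (A + B) * (C k)ᴴ = ∑ k, C k * A * (C k)ᴴ + ∑ k, C k * B * (C k)ᴴ := by
  rw [← Finset.sum_add_distrib]
  exact Finset.sum_congr rfl fun k _ => by rw [mul_add, add_mul]

/-- `tr (Φ(H)^2) ≤ 6 tr H^2` for every Hermitian `H`.
PROOF. `K = Φ(H)` is Hermitian; `H = Hp - Hm`, `K = Kp - Km` (B3), `|H| = Hp + Hm`,
`|K| = Kp + Km`; `|H|^2 = H^2`, `|K|^2 = K^2` since the mixed products vanish.
`Φ(Hp), Φ(Hm) ≥ 0`, so by B1
`tr K^2 = tr (Φ(H) K) = tr Φ(Hp) Kp - tr Φ(Hp) Km - tr Φ(Hm) Kp + tr Φ(Hm) Km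
≤ tr (Φ(|H|) |K|)`.  By `rtr_cs` and G8 `(tr (Φ(|H|) |K|))^2 ≤ tr Φ(|H|)^2 tr |K|^2
≤ 6 tr H^2 tr K^2`.  So `(tr K^2)^2 ≤ 6 tr H^2 tr K^2`; divide by `tr K^2` (if it is `0`, the
claim is trivial). -/
theorem phi_herm_le {C : Fin 4 → Matrix ι ι ℂ} (hC : Con C) {H : Matrix ι ι ℂ}
    (hH : H.IsHermitian) :
    rtr ((∑ k, C k * H * (C k)ᴴ) * (∑ k, C k * H * (C k)ᴴ)) ≤ 6 * rtr (H * H) := by
  have hHe : Hᴴ = H := hH
  have hK : (∑ k, C k * H * (C k)ᴴ).IsHermitian := by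
    show (∑ k, C k * H * (C k)ᴴ)ᴴ = ∑ k, C k * H * (C k)ᴴ
    rw [conjTranspose_sum]
    refine Finset.sum_congr rfl fun k _ => ?_
    rw [conjTranspose_mul, conjTranspose_mul, conjTranspose_conjTranspose, hHe, Matrix.mul_assoc]
  obtain ⟨Hp, Hm, -, hHp, hHm, eH, -, -, -, -, hpm, hmp⟩ := pm_parts hH
  obtain ⟨Kp, Km, -, hKp, hKm, eK, -, -, -, -, kpm, kmp⟩ := pm_parts hK
  have ha := r1_pos C hHp
  have hb := r1_pos C hHm
  have e1 : ∑ k, C k * H * (C k)ᴴ = ∑ k, C k * Hp * (C k)ᴴ - ∑ k, C k * Hm * (C k)ᴴ := by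
    rw [eH]
    exact r1_sub C Hp Hm
  have hab := phi_sq_le hC (hHp.add hHm)
  rw [r1_add C Hp Hm] at hab
  set K := ∑ k, C k * H * (C k)ᴴ with hKdef
  set a := ∑ k, C k * Hp * (C k)ᴴ with hadef
  set b := ∑ k, C k * Hm * (C k)ᴴ with hbdef
  have t1 := rtr_mul_nonneg ha hKp
  have t2 := rtr_mul_nonneg ha hKm
  have t3 := rtr_mul_nonneg hb hKp
  have t4 := rtr_mul_nonneg hb hKm
  have f1 : rtr (K * K) = rtr (a * Kp) - rtr (a * Km) - rtr (b * Kp) + rtr (b * Km) := by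
    have : K * K = a * Kp - a * Km - b * Kp + b * Km := by
      calc K * K = (a - b) * (Kp - Km) := by rw [← e1, ← eK]
        _ = _ := by noncomm_ring
    rw [this, rtr_add, rtr_sub, rtr_sub]
  have f2 : rtr ((a + b) * (Kp + Km)) = rtr (a * Kp) + rtr (a * Km) + rtr (b * Kp) + rtr (b * Km) := by
    have : (a + b) * (Kp + Km) = a * Kp + a * Km + b * Kp + b * Km := by noncomm_ring
    rw [this, rtr_add, rtr_add, rtr_add]
  have hle : rtr (K * K) ≤ rtr ((a + b) * (Kp + Km)) := by linarith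
  have f3 : (Hp + Hm) * (Hp + Hm) = H * H := by
    rw [eH, add_mul, mul_add, mul_add, sub_mul, mul_sub, mul_sub, hpm, hmp]
    abel
  have f4 : (Kp + Km) * (Kp + Km) = K * K := by
    have : K * K = (Kp - Km) * (Kp - Km) := by rw [← eK]
    rw [this, add_mul, mul_add, mul_add, sub_mul, mul_sub, mul_sub, kpm, kmp]
    abel
  have hcs := rtr_cs (K := a + b) (H := Kp + Km) (ha.add hb).1 (hKp.add hKm).1
  rw [f4] at hcs
  rw [f3] at hab
  have hx : 0 ≤ rtr (K * K) := by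
    have := rtr_conjTranspose_mul_self_nonneg K
    have h5 : Kᴴ = K := hK
    rwa [h5] at this
  have hh : 0 ≤ rtr (H * H) := by
    have := rtr_conjTranspose_mul_self_nonneg H
    rwa [hHe] at this
  have hsq : rtr (K * K) * rtr (K * K) ≤ 6 * rtr (H * H) * rtr (K * K) := by
    calc rtr (K * K) * rtr (K * K) ≤ rtr ((a + b) * (Kp + Km)) * rtr ((a + b) * (Kp + Km)) := mul_self_le_mul_self hx hle
      _ = rtr ((a + b) * (Kp + Km)) ^ 2 := (sq _).symm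
      _ ≤ rtr ((a + b) * (a + b)) * rtr (K * K) := hcs
      _ ≤ 6 * rtr (H * H) * rtr (K * K) := mul_le_mul_of_nonneg_right hab hx
  rcases hx.eq_or_lt with h0 | h0
  · rw [← h0]
    linarith
  · exact le_of_mul_le_mul_right hsq h0

end Pool.Agent.H25A
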