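import Pool.Agent.Lib.H25A.Defs
import Pool.Agent.H39Alpha.Upper2

/-! Chunk R3 (M): compression to an orthonormal family. -/

namespace Pool.Agent.H25A

open Matrix
open scoped ComplexOrder
open scoped InnerProductSpace

variable {α : Type*} [Fintype α] [DecidableEq α]
variable {H : Type*} [NormedAddCommGroup H] [InnerProductSpace ℂ H]

/-- PROOF. For `x : Fin 4 → ℂ` put `M = ∑ x_k u_k`, `‖M‖^2 ≤ ∑ |x_k|^2 =: s` (`Contr2`), and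
`M' = ∑ x_k u'_k`, i.e. `M'_{pq} = <b_p, M b_q>`.  For a vector `c` (`v = ∑ c_q b_q`,
`‖v‖^2 = ∑ |c_q|^2`): `(M' c)_p = <b_p, M v>`, so
`‖M' c‖^2 = ∑_p |<b_p, M v>|^2 ≤ ‖M v‖^2 ≤ s ‖v‖^2 = s ∑ |c_q|^2` (Bessel,
`Orthonormal.sum_inner_products_le`).  This is `<c, (s - M'^* M') c> ≥ 0`
(and `s - M'^* M'` is Hermitian). -/
theorem con_compress {b : α → H} (hb : Orthonormal ℂ b) {u : Fin 4 → (H →L[ℂ] H)}
    (hu : Pool.Agent.H39Alpha.Contr2 u) :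
    Con fun k => (Matrix.of fun p q => ⟪b p, u k (b q)⟫_ℂ : Matrix α α ℂ) := by
  intro x
  obtain ⟨M, hM⟩ : ∃ M : H →L[ℂ] H, M = ∑ k, x k • u k := ⟨_, rfl⟩
  have hs : ‖M‖ ^ 2 ≤ ∑ k, ‖x k‖ ^ 2 := by
    rw [hM]
    exact hu x
  have h1 : ∑ k, x k • (Matrix.of fun p q => ⟪b p, u k (b q)⟫_ℂ : Matrix α α ℂ) =
      Matrix.of fun p q => ⟪b p, M (b q)⟫_ℂ := by
    ext p q
    rw [Matrix.sum_apply, Matrix.of_apply, hM, _root_.sum_apply, inner_sum]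
    refine Finset.sum_congr rfl fun k _ => ?_
    rw [Matrix.smul_apply, Matrix.of_apply, smul_eq_mul, _root_.smul_apply,
      inner_smul_right]
  rw [h1]
  obtain ⟨M', hM'⟩ : ∃ M' : Matrix α α ℂ, M' = Matrix.of fun p q => ⟪b p, M (b q)⟫_ℂ := ⟨_, rfl⟩
  rw [← hM']
  refine PosSemidef.of_dotProduct_mulVec_nonneg ?_ fun c => ?_
  · refine IsHermitian.sub ?_ (isHermitian_conjTranspose_mul_self _)
    show ((((∑ k, ‖x k‖ ^ 2 : ℝ) : ℂ) • (1 : Matrix α α ℂ)))ᴴ = _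
    rw [conjTranspose_smul, conjTranspose_one, RCLike.star_def, Complex.conj_ofReal]
  · have h2 : ∀ p, (M' *ᵥ c) p = ⟪b p, M (∑ q, c q • b q)⟫_ℂ := fun p => by
      rw [map_sum, inner_sum, hM']
      refine Finset.sum_congr rfl fun q _ => ?_
      show ⟪b p, M (b q)⟫_ℂ * c q = ⟪b p, M (c q • b q)⟫_ℂ
      rw [map_smul, inner_smul_right, mul_comm]
    have h3 : ∀ w : α → ℂ, star w ⬝ᵥ w = ((∑ p, ‖w p‖ ^ 2 : ℝ) : ℂ) := fun w => by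
      unfold dotProduct
      rw [Complex.ofReal_sum]
      refine Finset.sum_congr rfl fun p _ => ?_
      rw [Pi.star_apply, RCLike.star_def, Complex.conj_mul', Complex.ofReal_pow]
    have h4 : star c ⬝ᵥ ((((∑ k, ‖x k‖ ^ 2 : ℝ) : ℂ) • (1 : Matrix α α ℂ) - M'ᴴ * M') *ᵥ c) =
        (((∑ k, ‖x k‖ ^ 2) * (∑ p, ‖c p‖ ^ 2) - ∑ p, ‖(M' *ᵥ c) p‖ ^ 2 : ℝ) : ℂ) := by
      rw [sub_mulVec, dotProduct_sub, smul_mulVec, one_mulVec, dotProduct_smul, h3,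
        ← mulVec_mulVec, dotProduct_mulVec, vecMul_conjTranspose, star_star, h3, smul_eq_mul]
      push_cast
      ring
    rw [h4]
    have h5 : ∑ p, ‖(M' *ᵥ c) p‖ ^ 2 ≤ ‖M (∑ q, c q • b q)‖ ^ 2 := by
      rw [Finset.sum_congr rfl fun p _ => by rw [h2 p]]
      exact hb.sum_inner_products_le _
    have h6 : ‖∑ q, c q • b q‖ ^ 2 = ∑ q, ‖c q‖ ^ 2 := by
      have h7 : ((‖∑ q, c q • b q‖ ^ 2 : ℝ) : ℂ) = ((∑ q, ‖c q‖ ^ 2 : ℝ) : ℂ) := by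
        have h8 := inner_self_eq_norm_sq_to_K (𝕜 := ℂ) (∑ q, c q • b q)
        rw [hb.inner_sum] at h8
        rw [Complex.ofReal_pow, Complex.ofReal_sum]
        refine h8.symm.trans (Finset.sum_congr rfl fun q _ => ?_)
        rw [Complex.conj_mul', Complex.ofReal_pow]
      exact_mod_cast h7
    have h9 : ‖M (∑ q, c q • b q)‖ ^ 2 ≤ (∑ k, ‖x k‖ ^ 2) * ∑ q, ‖c q‖ ^ 2 := by
      calc ‖M (∑ q, c q • b q)‖ ^ 2 ≤ (‖M‖ * ‖∑ q, c q • b q‖) ^ 2 :=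
            pow_le_pow_left₀ (norm_nonneg _) (M.le_opNorm _) 2
        _ = ‖M‖ ^ 2 * ‖∑ q, c q • b q‖ ^ 2 := mul_pow _ _ _
        _ ≤ (∑ k, ‖x k‖ ^ 2) * ∑ q, ‖c q‖ ^ 2 := by
            rw [h6]
            exact mul_le_mul_of_nonneg_right hs (Finset.sum_nonneg fun _ _ => by positivity)
    have h10 : (0 : ℝ) ≤ (∑ k, ‖x k‖ ^ 2) * (∑ p, ‖c p‖ ^ 2) - ∑ p, ‖(M' *ᵥ c) p‖ ^ 2 :=
      sub_nonneg.2 (h5.trans h9)
    exact_mod_cast h10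

end Pool.Agent.H25A
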