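import Pool.Agent.Lib.H25A.R2
import Pool.Agent.Lib.H25A.R3
import Pool.Agent.Lib.H25A.R4
import Pool.Agent.H39Alpha.Connect

/-! Chunk R5 (M/L): the bound for operators. -/

namespace Pool.Agent.H25A

open Matrix
open scoped ComplexOrder
open scoped InnerProductSpace ComplexConjugate

theorem r5_tr {α β : Type*} [Fintype α] [Fintype β] (N : Matrix α β ℂ) :
    ((N * Nᴴ).trace).re = ∑ p, ∑ j, ‖N p j‖ ^ 2 := by
  unfold Matrix.trace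
  rw [Complex.re_sum]
  refine Finset.sum_congr rfl fun p _ => ?_
  rw [Matrix.diag_apply, Matrix.mul_apply, Complex.re_sum]
  refine Finset.sum_congr rfl fun j _ => ?_
  rw [Matrix.conjTranspose_apply]
  show (N p j * (starRingEnd ℂ) (N p j)).re = _
  rw [Complex.mul_conj']
  norm_cast

/-- A scalar estimate: `|tr (N^* Z)|^2 ≤ tr (N^* N) tr (Z^* Z)` for rectangular matrices
(Cauchy-Schwarz for finite sums). -/
theorem trace_cs {α β : Type*} [Fintype α] [Fintype β] (N Z : Matrix α β ℂ) :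
    ‖(Nᴴ * Z).trace‖ ^ 2 ≤ ((N * Nᴴ).trace).re * ((Z * Zᴴ).trace).re := by
  rw [r5_tr, r5_tr]
  have h1 : (Nᴴ * Z).trace = ∑ x : α × β, star (N x.1 x.2) * Z x.1 x.2 := by
    rw [Fintype.sum_prod_type_right]
    unfold Matrix.trace
    refine Finset.sum_congr rfl fun j _ => ?_
    rw [Matrix.diag_apply, Matrix.mul_apply]
    refine Finset.sum_congr rfl fun i _ => ?_
    rw [Matrix.conjTranspose_apply]
  have h2 : ‖(Nᴴ * Z).trace‖ ≤ ∑ x : α × β, ‖N x.1 x.2‖ * ‖Z x.1 x.2‖ := by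
    rw [h1]
    refine (norm_sum_le _ _).trans (le_of_eq (Finset.sum_congr rfl fun x _ => ?_))
    rw [norm_mul, norm_star]
  have h3 := Finset.sum_mul_sq_le_sq_mul_sq (Finset.univ : Finset (α × β)) (fun x => ‖N x.1 x.2‖) (fun x => ‖Z x.1 x.2‖)
  have h4 : ∀ M : Matrix α β ℂ, ∑ p, ∑ j, ‖M p j‖ ^ 2 = ∑ x : α × β, ‖M x.1 x.2‖ ^ 2 := fun M => by
    rw [Fintype.sum_prod_type]
  rw [h4, h4]
  refine le_trans ?_ h3
  exact pow_le_pow_left₀ (norm_nonneg _) h2 2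

variable {m : ℕ} {H : Type*} [NormedAddCommGroup H] [InnerProductSpace ℂ H] [CompleteSpace H]

omit [CompleteSpace H] in
theorem r5_norm {d : ℕ} {b : Fin d → H} (hb : Orthonormal ℂ b) {v : H} (hv : v = ∑ q, ⟪b q, v⟫_ℂ • b q) :
    ‖v‖ ^ 2 = ∑ q, ‖⟪b q, v⟫_ℂ‖ ^ 2 := by
  obtain ⟨c, hc⟩ : ∃ c : Fin d → ℂ, c = fun q => ⟪b q, v⟫_ℂ := ⟨_, rfl⟩
  have hv' : v = ∑ q, c q • b q := by rw [hc]; exact hv
  have h1 : ⟪v, v⟫_ℂ = ∑ q, conj (c q) * c q := by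
    conv_lhs => rw [hv']
    exact hb.inner_sum c c Finset.univ
  have h2 : ((‖v‖ ^ 2 : ℝ) : ℂ) = ((∑ q, ‖c q‖ ^ 2 : ℝ) : ℂ) := by
    rw [Complex.ofReal_pow]
    have h3 : ((‖v‖ : ℝ) : ℂ) ^ 2 = ⟪v, v⟫_ℂ := (inner_self_eq_norm_sq_to_K (𝕜 := ℂ) v).symm
    rw [h3, h1, Complex.ofReal_sum]
    refine Finset.sum_congr rfl fun q _ => ?_
    rw [Complex.conj_mul', Complex.ofReal_pow]
  have h4 := Complex.ofReal_injective h2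
  rw [h4, hc]

/-- `‖∑ a_k ⊗ u_k‖^2 ≤ 6`.
PROOF. Let `T = ∑_k amp H (a_k) * dia m (u_k)`, `ξ` a vector, `η = T ξ`.  Take the orthonormal
family `b : Fin d → H` of R4 for the components `ξ_j`, `η_j`; matrices
`Ξ_{pj} = <b_p, ξ_j>`, `N_{pj} = <b_p, η_j>` in `Matrix (Fin d) (Fin m) ℂ` and
`u'_k = (<b_p, u_k b_q>)_{pq}` (`Con u'` by R3).  Then
`‖η‖^2 = <η, T ξ> = ∑_k ∑_{ij} (a_k)_{ij} <η_i, u_k ξ_j>
= ∑_k ∑_{ijpq} (a_k)_{ij} conj(N_{pi}) (u'_k)_{pq} Ξ_{qj} = tr (N^* Z)`,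
`Z = ∑_k u'_k Ξ (a_k)^T`.  R2 with `a := fun k => (a_k)^T` (hypothesis `ha`) gives
`tr (Z Z^*) ≤ 6 tr (Ξ Ξ^*) = 6 ‖ξ‖^2`, and `tr (N N^*) = ‖η‖^2`.  So
`‖η‖^4 ≤ ‖η‖^2 * 6 ‖ξ‖^2`, i.e. `‖T ξ‖^2 ≤ 6 ‖ξ‖^2`. -/
theorem norm_sum_le {a : Fin 4 → Matrix (Fin m) (Fin m) ℂ}
    (ha : Con fun k => ((a k)ᵀ)ᴴ) {u : Fin 4 → (H →L[ℂ] H)}
    (hu : Pool.Agent.H39Alpha.Contr2 u) :
    ‖∑ k, Pool.Agent.H39Alpha.amp H (a k) * Pool.Agent.H39Alpha.dia m (u k)‖ ≤ Real.sqrt 6 := by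
  obtain ⟨T, hT⟩ : ∃ T, T = ∑ k, Pool.Agent.H39Alpha.amp H (a k) * Pool.Agent.H39Alpha.dia m (u k) := ⟨_, rfl⟩
  rw [← hT]
  refine ContinuousLinearMap.opNorm_le_bound _ (Real.sqrt_nonneg _) fun ξ => ?_
  have hTi : ∀ i, (T ξ) i = ∑ k, ∑ j, (a k) i j • u k (ξ j) := by
    intro i
    rw [hT]
    simp [_root_.sum_apply, mul_apply_eq_comp]
  obtain ⟨d, b, hb, hξ, hη⟩ := exists_onb (fun j => ξ j) (fun j => (T ξ) j)
  obtain ⟨Ξ, hΞ⟩ : ∃ Ξ : Matrix (Fin d) (Fin m) ℂ, Ξ = Matrix.of fun p j => ⟪b p, ξ j⟫_ℂ := ⟨_, rfl⟩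
  obtain ⟨N, hN⟩ : ∃ N : Matrix (Fin d) (Fin m) ℂ, N = Matrix.of fun p j => ⟪b p, (T ξ) j⟫_ℂ := ⟨_, rfl⟩
  obtain ⟨v, hv⟩ : ∃ v : Fin 4 → Matrix (Fin d) (Fin d) ℂ, v = fun k => Matrix.of fun p q => ⟪b p, u k (b q)⟫_ℂ :=
    ⟨_, rfl⟩
  have hcon : Con v := by rw [hv]; exact con_compress hb hu
  have main := rect_le hcon ha Ξ
  have hZ : (∑ k, v k * Ξ * (a k)ᵀ) = N := by
    ext p i
    have e1 : N p i = ⟪b p, (T ξ) i⟫_ℂ := by rw [hN]; rfl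
    rw [e1, hTi i, inner_sum, Matrix.sum_apply]
    refine Finset.sum_congr rfl fun k _ => ?_
    rw [inner_sum, Matrix.mul_apply]
    refine Finset.sum_congr rfl fun j _ => ?_
    rw [inner_smul_right, Matrix.transpose_apply, Matrix.mul_apply, mul_comm]
    congr 1
    have e2 : u k (ξ j) = ∑ q, ⟪b q, ξ j⟫_ℂ • u k (b q) := by
      conv_lhs => rw [hξ j]
      rw [map_sum]
      refine Finset.sum_congr rfl fun q _ => ?_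
      rw [map_smul]
    rw [e2, inner_sum]
    refine Finset.sum_congr rfl fun q _ => ?_
    rw [inner_smul_right, hv, hΞ, mul_comm]
    rfl
  rw [hZ] at main
  unfold rtr at main
  rw [r5_tr, r5_tr, Finset.sum_comm] at main
  have n1 : ‖T ξ‖ ^ 2 = ∑ j, ∑ p, ‖N p j‖ ^ 2 := by
    rw [PiLp.norm_sq_eq_of_L2]
    refine Finset.sum_congr rfl fun j _ => ?_
    rw [r5_norm hb (hη j), hN]
    rfl
  have n2 : ‖ξ‖ ^ 2 = ∑ p, ∑ j, ‖Ξ p j‖ ^ 2 := by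
    rw [PiLp.norm_sq_eq_of_L2, Finset.sum_comm]
    refine Finset.sum_congr rfl fun j _ => ?_
    rw [r5_norm hb (hξ j), hΞ]
    rfl
  rw [← n1, ← n2] at main
  rw [← sq_le_sq₀ (norm_nonneg _) (by positivity), mul_pow, Real.sq_sqrt (by norm_num)]
  exact main

end Pool.Agent.H25A
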