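import Pool.Agent.Lib.H25A.Defs
import Pool.Agent.H39Alpha.UpperL2

/-! Chunk R6 (M). -/

namespace Pool.Agent.H25A

open Matrix
open scoped ComplexOrder
open scoped ComplexConjugate

variable {m : ℕ}

lemma r6_dot {m : ℕ} (v : Fin m → ℂ) :
    star v ⬝ᵥ v = ((‖(WithLp.toLp 2 v : EuclideanSpace ℂ (Fin m))‖ ^ 2 : ℝ) : ℂ) := by
  rw [EuclideanSpace.norm_eq, Real.sq_sqrt (Finset.sum_nonneg fun i _ => by positivity)]
  simp only [dotProduct, Pi.star_apply, RCLike.star_def]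
  push_cast
  exact Finset.sum_congr rfl fun i _ => RCLike.conj_mul (v i)

lemma r6_psd {m : ℕ} (M : Matrix (Fin m) (Fin m) ℂ) (s : ℝ) (hs : 0 ≤ s)
    (h : ‖Matrix.toEuclideanCLM (𝕜 := ℂ) M‖ ≤ Real.sqrt s) :
    (((s : ℂ) • (1 : Matrix (Fin m) (Fin m) ℂ)) - Mᴴ * M).PosSemidef := by
  refine PosSemidef.of_dotProduct_mulVec_nonneg ?_ fun v => ?_
  · refine IsHermitian.sub ?_ (isHermitian_conjTranspose_mul_self M)
    show ((s : ℂ) • (1 : Matrix (Fin m) (Fin m) ℂ))ᴴ = _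
    rw [conjTranspose_smul, conjTranspose_one]
    simp
  · have h1 : star v ⬝ᵥ ((((s : ℂ) • (1 : Matrix (Fin m) (Fin m) ℂ)) - Mᴴ * M) *ᵥ v) =
        (s : ℂ) * (star v ⬝ᵥ v) - star (M *ᵥ v) ⬝ᵥ (M *ᵥ v) := by
      rw [sub_mulVec, dotProduct_sub, smul_mulVec, one_mulVec, dotProduct_smul, smul_eq_mul,
        ← mulVec_mulVec, dotProduct_mulVec, ← star_mulVec]
    rw [h1, r6_dot, r6_dot]
    have h2 : ‖(WithLp.toLp 2 (M *ᵥ v) : EuclideanSpace ℂ (Fin m))‖ ≤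
        Real.sqrt s * ‖(WithLp.toLp 2 v : EuclideanSpace ℂ (Fin m))‖ := by
      have h3 := (Matrix.toEuclideanCLM (𝕜 := ℂ) M).le_opNorm (WithLp.toLp 2 v)
      rw [Matrix.toEuclideanCLM_toLp] at h3
      exact h3.trans (mul_le_mul_of_nonneg_right h (norm_nonneg _))
    have h4 : ‖(WithLp.toLp 2 (M *ᵥ v) : EuclideanSpace ℂ (Fin m))‖ ^ 2 ≤
        s * ‖(WithLp.toLp 2 v : EuclideanSpace ℂ (Fin m))‖ ^ 2 := by
      calc ‖(WithLp.toLp 2 (M *ᵥ v) : EuclideanSpace ℂ (Fin m))‖ ^ 2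
          ≤ (Real.sqrt s * ‖(WithLp.toLp 2 v : EuclideanSpace ℂ (Fin m))‖) ^ 2 :=
            pow_le_pow_left₀ (norm_nonneg _) h2 2
        _ = _ := by rw [mul_pow, Real.sq_sqrt hs]
    rw [← Complex.ofReal_mul, ← Complex.ofReal_sub, Complex.zero_le_real]
    exact sub_nonneg.2 h4

/-- PROOF. `((a_k)^T)^*` is the entrywise conjugate of `a_k`, so for `y : Fin 4 → ℂ`
`∑ y_k ((a_k)^T)^*` is the entrywise conjugate of `M = ∑ conj(y_k) a_k`, and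
`s - (conj M)^* (conj M)` is the entrywise conjugate of `s - M^* M`.  Now `‖M v‖^2 ≤ s ‖v‖^2` for
all `v`, `s = ∑ |y_k|^2`: `M = x.map f` with `f = ∑ conj(y_k) proj_k`, `‖f‖^2 ≤ s`, and
`norm_map_le_of_minNorm` (see the proof of `contr2_amp` in `H39Alpha/UpperL2.lean`).  So
`s - M^* M` is positive semidefinite, and so is its entrywise conjugate (its transpose). -/
theorem con_of_minNorm (x : Matrix (Fin m) (Fin m) (EuclideanSpace ℂ (Fin 4)))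
    (hx : Pool.Agent.H39Alpha.minNorm x ≤ 1) :
    Con fun k => ((x.map (EuclideanSpace.proj k : EuclideanSpace ℂ (Fin 4) →L[ℂ] ℂ))ᵀ)ᴴ := by
  intro y
  obtain ⟨f, hf⟩ : ∃ f : EuclideanSpace ℂ (Fin 4) →L[ℂ] ℂ,
      f = ∑ k, star (y k) • (EuclideanSpace.proj k : EuclideanSpace ℂ (Fin 4) →L[ℂ] ℂ) := ⟨_, rfl⟩
  have h1 : ∑ k, y k • ((x.map (EuclideanSpace.proj k : EuclideanSpace ℂ (Fin 4) →L[ℂ] ℂ))ᵀ)ᴴ
      = ((x.map f)ᵀ)ᴴ := by
    ext i j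
    simp [hf, Matrix.sum_apply, _root_.sum_apply]
  have h3 : ‖f‖ ≤ Real.sqrt (∑ k, ‖y k‖ ^ 2) := by
    refine ContinuousLinearMap.opNorm_le_bound _ (Real.sqrt_nonneg _) fun z => ?_
    have h4 : f z = ∑ k, star (y k) * z k := by
      simp [hf, _root_.sum_apply]
    rw [h4, EuclideanSpace.norm_eq]
    calc ‖∑ k, star (y k) * z k‖ ≤ ∑ k, ‖y k‖ * ‖z k‖ := by
          refine (norm_sum_le _ _).trans (le_of_eq ?_)
          simp
      _ ≤ Real.sqrt (∑ k, ‖y k‖ ^ 2) * Real.sqrt (∑ k, ‖z k‖ ^ 2) :=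
          Real.sum_mul_le_sqrt_mul_sqrt _ _ _
  have h5 := r6_psd (x.map f) (∑ k, ‖y k‖ ^ 2) (Finset.sum_nonneg fun i _ => by positivity)
    ((Pool.Agent.H39Alpha.norm_map_le_of_minNorm x hx f).trans h3)
  have h6 := h5.transpose
  rw [h1]
  have h7 : (((((∑ k, ‖y k‖ ^ 2 : ℝ) : ℂ) • (1 : Matrix (Fin m) (Fin m) ℂ)) -
      (x.map f)ᴴ * x.map f))ᵀ = ((((∑ k, ‖y k‖ ^ 2 : ℝ) : ℂ) • (1 : Matrix (Fin m) (Fin m) ℂ)) -
      (((x.map f)ᵀ)ᴴ)ᴴ * ((x.map f)ᵀ)ᴴ) := by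
    rw [transpose_sub, transpose_smul, transpose_one, transpose_mul, conjTranspose_conjTranspose]
    rfl
  rw [← h7]
  exact h6

/-- PROOF. `∑ y_k u(e_k) = u(y)`, `‖u(y)‖ ≤ ‖y‖` (see the proof of `contr2_dia` in
`H39Alpha/UpperL2.lean`). -/
theorem contr2_of_norm {H : Type*} [NormedAddCommGroup H] [InnerProductSpace ℂ H]
    (u : EuclideanSpace ℂ (Fin 4) →L[ℂ] (H →L[ℂ] H)) (hu : ‖u‖ ≤ 1) :
    Pool.Agent.H39Alpha.Contr2 (fun k => u (EuclideanSpace.single k (1:ℂ))) := by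
  intro y
  have h1 : ∑ k, y k • u (EuclideanSpace.single k (1:ℂ)) = u (WithLp.toLp 2 y) := by
    conv_rhs => rw [Pool.Agent.H39Alpha.euclidean_decomp (WithLp.toLp 2 y)]
    simp [map_sum]
  rw [h1]
  have h2 : ‖u (WithLp.toLp 2 y)‖ ≤ ‖(WithLp.toLp 2 y : EuclideanSpace ℂ (Fin 4))‖ := by
    refine (u.le_opNorm _).trans ?_
    exact mul_le_of_le_one_left (norm_nonneg _) hu
  calc ‖u (WithLp.toLp 2 y)‖ ^ 2
      ≤ ‖(WithLp.toLp 2 y : EuclideanSpace ℂ (Fin 4))‖ ^ 2 := by gcongr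
    _ = ∑ k, ‖y k‖ ^ 2 := by
        rw [EuclideanSpace.norm_eq, Real.sq_sqrt (Finset.sum_nonneg fun i _ => by positivity)]

end Pool.Agent.H25A
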