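import Pool.Agent.Lib.H25A.R5
import Pool.Agent.Lib.H25A.R6
import Pool.Agent.H39Alpha.UpperL2
import Pool.Agent.H39Alpha.LowerL2

/-! Assembly: `α(ℓ₂⁴) = √6`. -/

namespace Pool.Agent.H25A

open Pool.Agent.H39Alpha

universe v

theorem alpha_four_le :
    alpha.{v} (EuclideanSpace ℂ (Fin 4)) ≤ ENNReal.ofReal (Real.sqrt 6) := by
  refine iSup_le fun m => iSup_le fun x => iSup_le fun hx => ?_
  refine iSup_le fun H => iSup_le fun _ => iSup_le fun _ => iSup_le fun _ => iSup_le fun u =>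
    iSup_le fun hu => ?_
  apply ENNReal.ofReal_le_ofReal
  rw [blockOp_map_eq_sum x u (fun k => EuclideanSpace.single k (1:ℂ))
    (fun k => (EuclideanSpace.proj k : EuclideanSpace ℂ (Fin 4) →L[ℂ] ℂ)) euclidean_decomp]
  exact norm_sum_le (con_of_minNorm x hx) (contr2_of_norm u hu)

theorem alpha_four :
    alpha.{v} (EuclideanSpace ℂ (Fin 4)) = ENNReal.ofReal (Real.sqrt 6) := by
  refine le_antisymm alpha_four_le ?_
  have h := le_alpha_l2.{v} 4 2
  have e : (((2 : ℕ) : ℝ) + 1) * (((4 : ℕ) : ℝ) - ((2 : ℕ) : ℝ)) = 6 := by norm_num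
  rwa [e] at h

end Pool.Agent.H25A
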